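import Pool.Agent.Lib.MP_e46711_an.H11.Tool

/-!
# Module C1: the passive part of the ring
-/

open Set Filter Topology MeasureTheory intervalIntegral

namespace Pool.Agent.Lib.MP_e46711_an.H11

/-- the sharp Dirichlet-Neumann inequality by the tangent trick -/
theorem tan_ineq {μ τ s : ℝ} {v : ℝ → ℝ} (hμ : 0 ≤ μ) (hτ : 0 ≤ τ) (hμτ : μ * τ < Real.pi / 2)
    (hv : Lip v s (s + τ)) :
    -(μ * Real.tan (μ * τ)) * v (s + τ) ^ 2
      ≤ ∫ r in s..(s + τ), (deriv v r ^ 2 - μ ^ 2 * v r ^ 2) := by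
  have hsτ : s ≤ s + τ := by linarith
  set ζ : ℝ → ℝ := fun r => -(μ * Real.tan (μ * (r - s))) with hζ
  have hcos : ∀ r ∈ Icc s (s + τ), Real.cos (μ * (r - s)) ≠ 0 := by
    intro r hr
    have h1 : 0 ≤ μ * (r - s) := mul_nonneg hμ (by linarith [hr.1])
    have h2 : μ * (r - s) ≤ μ * τ := mul_le_mul_of_nonneg_left (by linarith [hr.2]) hμ
    exact (Real.cos_pos_of_mem_Ioo ⟨by linarith [Real.pi_pos], by linarith⟩).ne'
  have hζd : ∀ r ∈ Icc s (s + τ), HasDerivAt ζ (-μ ^ 2 - ζ r ^ 2) r := by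
    intro r hr
    have h1 : HasDerivAt (fun r => μ * (r - s)) μ r := by
      simpa using ((hasDerivAt_id r).sub_const s).const_mul μ
    have h2 := ((Real.hasDerivAt_tan (hcos r hr)).comp r h1).const_mul μ
    have h3 := h2.neg
    refine h3.congr_deriv ?_
    have h4 : 1 / Real.cos (μ * (r - s)) ^ 2 = 1 + Real.tan (μ * (r - s)) ^ 2 := by
      rw [Real.tan_eq_sin_div_cos]
      have := hcos r hr
      field_simp
      nlinarith [Real.sin_sq_add_cos_sq (μ * (r - s))]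
    rw [h4]
    simp only [hζ]
    ring
  have hζac : AbsolutelyContinuousOnInterval ζ s (s + τ) := by
    apply ContDiffOn.absolutelyContinuousOnInterval
    rw [uIcc_of_le hsτ]
    intro r hr
    have h1 : ContDiffAt ℝ 1 (fun r => Real.tan (μ * (r - s))) r := by
      have h2 : ContDiffAt ℝ 1 Real.tan (μ * (r - s)) := Real.contDiffAt_tan.2 (hcos r hr)
      exact ContDiffAt.comp (g := Real.tan) (f := fun r => μ * (r - s)) r h2 (by fun_prop)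
    exact (contDiffAt_const.mul h1).neg.contDiffWithinAt
  have hvac := lip_ac hv hsτ
  have hwac : AbsolutelyContinuousOnInterval (fun r => ζ r * (v r * v r)) s (s + τ) :=
    hζac.fun_mul (hvac.fun_mul hvac)
  have hw := hwac.integral_deriv_eq_sub
  have hζ0 : ζ s = 0 := by simp [hζ]
  have hζ1 : ζ (s + τ) = -(μ * Real.tan (μ * τ)) := by simp [hζ]
  rw [hζ0, hζ1] at hw
  have h5 : -(μ * Real.tan (μ * τ)) * v (s + τ) ^ 2
      = ∫ r in s..(s + τ), deriv (fun r => ζ r * (v r * v r)) r := by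
    rw [hw]; ring
  rw [h5]
  refine integral_mono_ae_restrict hsτ hwac.intervalIntegrable_deriv ?_ ?_
  · refine (ii_deriv_sq hv hsτ).sub ?_
    refine ContinuousOn.intervalIntegrable ?_
    rw [uIcc_of_le hsτ]
    exact continuousOn_const.mul ((lip_cont hv).pow 2)
  · rw [EventuallyLE, ae_restrict_iff' measurableSet_Icc]
    filter_upwards [hvac.ae_differentiableAt] with r hr hr'
    have h6 : DifferentiableAt ℝ v r := hr (by rwa [uIcc_of_le hsτ])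
    have h7 := (hζd r hr').mul (h6.hasDerivAt.mul h6.hasDerivAt)
    have h8 : deriv (fun r => ζ r * (v r * v r)) r
        = (-μ ^ 2 - ζ r ^ 2) * (v r * v r) + ζ r * (deriv v r * v r + v r * deriv v r) :=
      h7.deriv
    rw [h8]
    nlinarith [sq_nonneg (deriv v r - ζ r * v r)]

/-- choice of `ν` -/
theorem exists_nu (P : Par) : ∃ ν : ℝ, 0 < ν ∧ 3 * ν < 1 ∧
    (1 + ν) * P.L2 * (1 + ν) * (1 / P.a) < 1 - ν ∧
    √(P.L2 * (1 + ν) / (1 - 3 * ν)) * P.τ < Real.pi / 2 := by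
  have ha := hapos P
  have h1 : ∀ᶠ ν in 𝓝 (0:ℝ), 3 * ν < 1 := by
    have : Continuous fun ν : ℝ => 3 * ν := by fun_prop
    exact this.continuousAt.eventually_lt continuousAt_const (by norm_num)
  have h2 : ∀ᶠ ν in 𝓝 (0:ℝ), (1 + ν) * P.L2 * (1 + ν) * (1 / P.a) < 1 - ν := by
    have : Continuous fun ν : ℝ => (1 + ν) * P.L2 * (1 + ν) * (1 / P.a) := by fun_prop
    refine this.continuousAt.eventually_lt (g := fun ν => 1 - ν) (by fun_prop) ?_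
    have h3 : P.L2 / P.a < 1 := (div_lt_one ha).2 P.ha
    have h4 : (1 + 0) * P.L2 * (1 + 0) * (1 / P.a) = P.L2 / P.a := by ring
    rw [h4]
    linarith
  have h3 : ∀ᶠ ν in 𝓝 (0:ℝ), √(P.L2 * (1 + ν) / (1 - 3 * ν)) * P.τ < Real.pi / 2 := by
    have : ContinuousAt (fun ν : ℝ => √(P.L2 * (1 + ν) / (1 - 3 * ν)) * P.τ) 0 := by
      refine ContinuousAt.mul ?_ continuousAt_const
      refine Real.continuous_sqrt.continuousAt.comp ?_
      exact ContinuousAt.div (by fun_prop) (by fun_prop) (by norm_num)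
    refine this.eventually_lt continuousAt_const ?_
    simpa using P.hτ2
  have h4 : ∀ᶠ ν in 𝓝[>] (0:ℝ), 3 * ν < 1 ∧ (1 + ν) * P.L2 * (1 + ν) * (1 / P.a) < 1 - ν ∧
      √(P.L2 * (1 + ν) / (1 - 3 * ν)) * P.τ < Real.pi / 2 :=
    (h1.and (h2.and h3)).filter_mono nhdsWithin_le_nhds
  obtain ⟨ν, hν, hν0⟩ := (h4.and self_mem_nhdsWithin).exists
  exact ⟨ν, hν0, hν.1, hν.2.1, hν.2.2⟩

/-- eventually, a continuous function is below a number above its value at `0` -/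
theorem ev_lt {F : ℝ → ℝ} {b : ℝ} (hF : Continuous F) (h : F 0 < b) :
    ∀ᶠ ε in 𝓝[>] (0:ℝ), F ε < b :=
  (hF.continuousAt.eventually_lt continuousAt_const h).filter_mono nhdsWithin_le_nhds

/-- C1. -/
theorem c1 : PassiveStatement := by
  intro P
  obtain ⟨ν, hν, hν3, hνa, hντ⟩ := exists_nu P
  have hL2 : 0 < P.L2 := by have := P.hL0; have := P.hL01; have := P.hL12; linarith
  have ha := hapos P
  have hM := P.hM
  have hc := P.hc
  have hτ := P.hτ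
  set Λ : ℝ := (1 + ν) * P.L2 with hΛ
  have hΛ0 : 0 < Λ := by positivity
  set μ : ℝ := √(P.L2 * (1 + ν) / (1 - 3 * ν)) with hμ
  have hμ0 : 0 ≤ μ := Real.sqrt_nonneg _
  have h13 : 0 < 1 - 3 * ν := by linarith
  have hμ2 : (1 - 3 * ν) * μ ^ 2 = Λ := by
    rw [hμ, Real.sq_sqrt (by positivity)]
    field_simp
    rw [hΛ]; ring
  set K : ℝ := μ * Real.tan (μ * P.τ) with hK
  have hK0 : 0 ≤ K := by
    refine mul_nonneg hμ0 (Real.tan_nonneg_of_nonneg_of_le_pi_div_two ?_ hντ.le)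
    positivity
  refine ⟨ν, ⟨hν, by linarith⟩, Λ * (1 + 1 / ν) + 1, by positivity, ?_⟩
  -- coefficients
  set r : ℝ → ℝ := fun ε => 1 / P.a + 2 * (ε ^ 2 / P.a) + ε ^ 2 with hr
  set m : ℝ → ℝ := fun ε => 1 + ε ^ 2 + P.a * ε ^ 2 + P.M * ε with hm
  set β : ℝ → ℝ := fun ε => 4 * Λ * (P.c * ε ^ 3 + ε ^ 4) + (1 - 3 * ν) * (ε * K) + Λ * ε ^ 2
    with hβ
  have hrc : Continuous r := by simp only [hr]; fun_prop
  have hmc : Continuous m := by simp only [hm]; fun_prop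
  have hβc : Continuous β := by simp only [hβ]; fun_prop
  have hr0 : r 0 = 1 / P.a := by simp [hr]
  have hm0 : m 0 = 1 := by simp [hm]
  have hβ0 : β 0 = 0 := by simp [hβ]
  have eQ : ∀ᶠ ε in 𝓝[>] (0:ℝ), (1 - 3 * ν) + Λ * (4 * P.τ * (P.c * ε ^ 2 + ε ^ 3)) < 1 - ν :=
    ev_lt (F := fun ε => (1 - 3 * ν) + Λ * (4 * P.τ * (P.c * ε ^ 2 + ε ^ 3))) (by fun_prop)
      (by simp; linarith)
  have e2 : ∀ᶠ ε in 𝓝[>] (0:ℝ), Λ * (2 * (P.c * ε ^ 2 + ε ^ 3) * (1 / P.c + ε ^ 2 / P.c)) < 1 - ν :=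
    ev_lt (F := fun ε => Λ * (2 * (P.c * ε ^ 2 + ε ^ 3) * (1 / P.c + ε ^ 2 / P.c))) (by fun_prop)
      (by simp; linarith)
  have e5 : ∀ᶠ ε in 𝓝[>] (0:ℝ), β ε * (2 * (r ε + ε ^ 2)) < 1 - ν :=
    ev_lt (F := fun ε => β ε * (2 * (r ε + ε ^ 2))) (by fun_prop) (by simp [hβ0]; linarith)
  have e3 : ∀ᶠ ε in 𝓝[>] (0:ℝ), β ε * (2 * (r ε + ε ^ 2)) + Λ * (m ε * ((1 + ν) * r ε)) < 1 - ν :=
    ev_lt (F := fun ε => β ε * (2 * (r ε + ε ^ 2)) + Λ * (m ε * ((1 + ν) * r ε))) (by fun_prop)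
      (by
        simp only [hβ0, hr0, hm0]
        have : 0 * (2 * (1 / P.a + 0 ^ 2)) + Λ * (1 * ((1 + ν) * (1 / P.a)))
          = Λ * (1 + ν) * (1 / P.a) := by ring
        rw [this]; exact hνa)
  have ex : ∀ᶠ ε in 𝓝[>] (0:ℝ), 2 * β ε + Λ * (m ε * (1 + 1 / ν)) < Λ * (1 + 1 / ν) + 1 :=
    ev_lt (F := fun ε => 2 * β ε + Λ * (m ε * (1 + 1 / ν))) (by fun_prop)
      (by simp only [hβ0, hm0]; linarith)
  filter_upwards [eQ, e2, e5, e3, ex, self_mem_nhdsWithin] with ε eQ e2 e5 e3 ex hε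
  have hε : 0 < ε := hε
  intro h H u hu
  have hcont := ring_cont H
  have hpos := H.pos
  have hpos' : ∀ {s t : ℝ}, ∀ r ∈ Icc s t, 0 ≤ h r := fun r _ => (hpos r).le
  -- the order
  have o67 := lt67 (P := P) hε
  have o78 := lt78 (P := P) hε
  have o89 := lt89 (P := P) hε
  have o910 := lt910 (P := P) hε
  have o1011 := lt1011 (P := P) hε
  have o1112 := lt1112 (P := P) hε
  have o1213 := lt1213 (P := P) hε
  have o1314 := lt1314 (P := P) hε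
  -- restrictions
  have hu68 : Lip u (P.s6 ε) (P.s8 ε) := lip_mono hu le_rfl (by linarith)
  have hu89 : Lip u (P.s8 ε) (P.s9 ε) := lip_mono hu (by linarith) (by linarith)
  have hu910 : Lip u (P.s9 ε) (P.s10 ε) := lip_mono hu (by linarith) (by linarith)
  have hu914 : Lip u (P.s9 ε) (P.s14 ε) := lip_mono hu (by linarith) (by linarith)
  have hu1014 : Lip u (P.s10 ε) (P.s14 ε) := lip_mono hu (by linarith) (by linarith)
  have hu814 : Lip u (P.s8 ε) (P.s14 ε) := lip_mono hu (by linarith) (by linarith)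
  -- energies
  set E2 := En h u (P.s6 ε) (P.s8 ε) with hE2
  set EQ := En h u (P.s8 ε) (P.s9 ε) with hEQ
  set E5 := En h u (P.s9 ε) (P.s10 ε) with hE5
  set E3 := En h u (P.s10 ε) (P.s14 ε) with hE3
  have hE2' : 0 ≤ E2 := En_nonneg hpos' (by linarith)
  have hEQ' : 0 ≤ EQ := En_nonneg hpos' (by linarith)
  have hE5' : 0 ≤ E5 := En_nonneg hpos' (by linarith)
  have hE3' : 0 ≤ E3 := En_nonneg hpos' (by linarith)
  have hE35 : En h u (P.s9 ε) (P.s14 ε) = E5 + E3 :=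
    (En_add hcont.continuousOn hu914 (by linarith) (by linarith)).symm
  have hEtot : En h u (P.s6 ε) (P.s14 ε) = E2 + (EQ + (E5 + E3)) := by
    rw [← hE35, hEQ, En_add hcont.continuousOn hu814 (by linarith) (by linarith), hE2,
      En_add hcont.continuousOn hu (by linarith) (by linarith)]
  -- masses and resistances
  have hR1014 : Rs h (P.s10 ε) (P.s14 ε) ≤ r ε := by
    rw [← Rs_add hcont hpos _ (P.s11 ε), ← Rs_add hcont hpos (P.s11 ε) (P.s12 ε),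
      ← Rs_add hcont hpos (P.s12 ε) (P.s13 ε)]
    have q1 := rsR H hε
    have q2 := rsJ6 H hε
    have q3 := rsN3 H hε
    have q4 := rsJ7 H hε
    simp only [hr]
    linarith
  have hM1014 : Ms h (P.s10 ε) (P.s14 ε) ≤ m ε := by
    rw [← Ms_add hcont _ (P.s11 ε), ← Ms_add hcont (P.s11 ε) (P.s12 ε),
      ← Ms_add hcont (P.s12 ε) (P.s13 ε)]
    have q1 := msR H hε
    have q2 := msJ6 H hε
    have q3 := msN3 H hε
    have q4 := msJ7 H hε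
    simp only [hm]
    linarith
  have hR914 : Rs h (P.s9 ε) (P.s14 ε) ≤ r ε + ε ^ 2 := by
    rw [← Rs_add hcont hpos _ (P.s10 ε)]
    have q1 := rsJ5 H hε
    linarith
  have hR68 : Rs h (P.s6 ε) (P.s8 ε) ≤ 1 / (P.c * ε) + ε / P.c := by
    rw [← Rs_add hcont hpos _ (P.s7 ε)]
    have q1 := rsN2 H hε
    have q2 := rsJ4 H hε
    linarith
  have hM68 : Ms h (P.s6 ε) (P.s8 ε) ≤ P.c * ε ^ 3 + ε ^ 4 := by
    rw [← Ms_add hcont _ (P.s7 ε)]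
    have q1 := msN2 H hε
    have q2 := msJ4 H hε
    linarith
  -- (i)
  set x := u (P.s14 ε) with hx
  have b3 : Sm h u (P.s10 ε) (P.s14 ε) ≤ m ε * ((1 + 1 / ν) * x ^ 2 + (1 + ν) * (r ε * E3)) := by
    have := Sm_le_ref (κ := 1 / ν) (r0 := P.s14 ε) (by positivity) hcont hpos
      (by linarith : P.s10 ε ≤ P.s14 ε) le_rfl le_rfl hu1014 ⟨by linarith, le_rfl⟩ hM1014 hR1014
    simpa using this
  -- (ii)
  set q0 := u (P.s9 ε) with hq0
  set B := 2 * x ^ 2 + 2 * (r ε + ε ^ 2) * (E5 + E3) with hB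
  have bq0 : q0 ^ 2 ≤ B := by
    have := pt_le_ref (κ := 1) (r0 := P.s14 ε) (r1 := P.s9 ε) one_pos hcont hpos hu914
      ⟨by linarith, le_rfl⟩ ⟨le_rfl, by linarith⟩ hR914
    rw [hE35] at this
    rw [hB]
    linarith
  have b5 : Sm h u (P.s9 ε) (P.s10 ε) ≤ ε ^ 2 * B := by
    have := Sm_le_ref (κ := 1) (r0 := P.s14 ε) one_pos hcont hpos
      (by linarith : P.s9 ε ≤ P.s10 ε) le_rfl (by linarith : P.s10 ε ≤ P.s14 ε) hu914
      ⟨by linarith, le_rfl⟩ (msJ5 H hε) hR914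
    rw [hE35] at this
    refine this.trans (le_of_eq ?_)
    rw [hB]; ring
  -- (iii)
  have bQ : Λ * Sm h u (P.s8 ε) (P.s9 ε) ≤ (1 - 3 * ν) * (EQ + ε * K * q0 ^ 2) := by
    have hs9 : P.s9 ε = P.s8 ε + P.τ := by simp only [Par.s8, Par.s9]; ring
    have t1 := tan_ineq (s := P.s8 ε) (v := u) hμ0 hτ.le hντ (by rw [← hs9]; exact hu89)
    rw [← hs9] at t1
    have t2 : EQ - μ ^ 2 * Sm h u (P.s8 ε) (P.s9 ε)
        = ε * ∫ r in (P.s8 ε)..(P.s9 ε), (deriv u r ^ 2 - μ ^ 2 * u r ^ 2) := by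
      rw [hEQ, En, Sm, ← intervalIntegral.integral_const_mul, ← intervalIntegral.integral_const_mul,
        ← intervalIntegral.integral_sub]
      · refine integral_congr fun s hs => ?_
        rw [uIcc_of_le o89] at hs
        show h s * deriv u s ^ 2 - μ ^ 2 * (h s * u s ^ 2)
          = ε * (deriv u s ^ 2 - μ ^ 2 * u s ^ 2)
        rw [H.hQ s hs]; ring
      · exact ii_En hcont.continuousOn hu89 o89
      · exact (ii_Sm hcont.continuousOn hu89 o89).const_mul _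
    have t3 : -(ε * K * q0 ^ 2) ≤ EQ - μ ^ 2 * Sm h u (P.s8 ε) (P.s9 ε) := by
      rw [t2]
      have := mul_le_mul_of_nonneg_left t1 hε.le
      refine le_trans (le_of_eq ?_) this
      rw [hK]; ring
    have t4 : (1 - 3 * ν) * (μ ^ 2 * Sm h u (P.s8 ε) (P.s9 ε))
        ≤ (1 - 3 * ν) * (EQ + ε * K * q0 ^ 2) :=
      mul_le_mul_of_nonneg_left (by linarith) h13.le
    calc Λ * Sm h u (P.s8 ε) (P.s9 ε) = (1 - 3 * ν) * (μ ^ 2 * Sm h u (P.s8 ε) (P.s9 ε)) := by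
          rw [← hμ2]; ring
      _ ≤ _ := t4
  -- (iv)
  set q1 := u (P.s8 ε) with hq1
  have bq1 : q1 ^ 2 ≤ 2 * q0 ^ 2 + 2 * (P.τ / ε * EQ) := by
    have := pt_le_ref (κ := 1) (r0 := P.s9 ε) (r1 := P.s8 ε) one_pos hcont hpos hu89
      ⟨by linarith, le_rfl⟩ ⟨le_rfl, by linarith⟩ (rsQ H hε).le
    linarith
  have b2 : Sm h u (P.s6 ε) (P.s8 ε) ≤ 4 * (P.c * ε ^ 3 + ε ^ 4) * q0 ^ 2
      + 4 * P.τ * (P.c * ε ^ 2 + ε ^ 3) * EQ
      + 2 * (P.c * ε ^ 2 + ε ^ 3) * (1 / P.c + ε ^ 2 / P.c) * E2 := by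
    have t1 := Sm_le_ref (κ := 1) (r0 := P.s8 ε) one_pos hcont hpos
      (by linarith : P.s6 ε ≤ P.s8 ε) le_rfl le_rfl hu68 ⟨by linarith, le_rfl⟩ hM68 hR68
    have t2 : (P.c * ε ^ 3 + ε ^ 4) * ((1 + 1) * q1 ^ 2) ≤ (P.c * ε ^ 3 + ε ^ 4) *
        ((1 + 1) * (2 * q0 ^ 2 + 2 * (P.τ / ε * EQ))) := by
      refine mul_le_mul_of_nonneg_left ?_ (by positivity)
      linarith
    have t3 : (P.c * ε ^ 3 + ε ^ 4) * ((1 + 1) * (2 * q0 ^ 2 + 2 * (P.τ / ε * EQ)))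
        = 4 * (P.c * ε ^ 3 + ε ^ 4) * q0 ^ 2 + 4 * P.τ * (P.c * ε ^ 2 + ε ^ 3) * EQ := by
      field_simp; ring
    have t4 : (P.c * ε ^ 3 + ε ^ 4) * ((1 + 1 / 1) * ((1 / (P.c * ε) + ε / P.c) * E2))
        = 2 * (P.c * ε ^ 2 + ε ^ 3) * (1 / P.c + ε ^ 2 / P.c) * E2 := by
      field_simp; ring
    calc Sm h u (P.s6 ε) (P.s8 ε) ≤ _ := t1
      _ = (P.c * ε ^ 3 + ε ^ 4) * ((1 + 1) * q1 ^ 2)
          + (P.c * ε ^ 3 + ε ^ 4) * ((1 + 1 / 1) * ((1 / (P.c * ε) + ε / P.c) * E2)) := by ring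
      _ ≤ _ := by rw [t4]; linarith
  -- sum
  have hStot : Sm h u (P.s6 ε) (P.s14 ε) = Sm h u (P.s6 ε) (P.s8 ε) + (Sm h u (P.s8 ε) (P.s9 ε)
      + (Sm h u (P.s9 ε) (P.s10 ε) + Sm h u (P.s10 ε) (P.s14 ε))) := by
    rw [Sm_add hcont.continuousOn hu914 (by linarith) (by linarith),
      Sm_add hcont.continuousOn hu814 (by linarith) (by linarith),
      Sm_add hcont.continuousOn hu (by linarith) (by linarith)]
  rw [hStot, hEtot]
  have f2 := mul_le_mul_of_nonneg_left b2 hΛ0.le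
  have f5 := mul_le_mul_of_nonneg_left b5 hΛ0.le
  have f3 := mul_le_mul_of_nonneg_left b3 hΛ0.le
  have hβq : (4 * Λ * (P.c * ε ^ 3 + ε ^ 4) + (1 - 3 * ν) * (ε * K)) * q0 ^ 2
      ≤ (4 * Λ * (P.c * ε ^ 3 + ε ^ 4) + (1 - 3 * ν) * (ε * K)) * B := by
    refine mul_le_mul_of_nonneg_left bq0 ?_
    positivity
  have g1 : Λ * (Sm h u (P.s6 ε) (P.s8 ε) + (Sm h u (P.s8 ε) (P.s9 ε)
      + (Sm h u (P.s9 ε) (P.s10 ε) + Sm h u (P.s10 ε) (P.s14 ε))))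
      ≤ ((1 - 3 * ν) + Λ * (4 * P.τ * (P.c * ε ^ 2 + ε ^ 3))) * EQ
        + Λ * (2 * (P.c * ε ^ 2 + ε ^ 3) * (1 / P.c + ε ^ 2 / P.c)) * E2
        + β ε * (2 * (r ε + ε ^ 2)) * E5
        + (β ε * (2 * (r ε + ε ^ 2)) + Λ * (m ε * ((1 + ν) * r ε))) * E3
        + (2 * β ε + Λ * (m ε * (1 + 1 / ν))) * x ^ 2 := by
    have g2 : β ε = 4 * Λ * (P.c * ε ^ 3 + ε ^ 4) + (1 - 3 * ν) * (ε * K) + Λ * ε ^ 2 := rfl
    have g3 : β ε * B = (4 * Λ * (P.c * ε ^ 3 + ε ^ 4) + (1 - 3 * ν) * (ε * K)) * B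
        + Λ * (ε ^ 2 * B) := by rw [g2]; ring
    have g4 : β ε * B = β ε * (2 * (r ε + ε ^ 2)) * E5 + β ε * (2 * (r ε + ε ^ 2)) * E3
        + 2 * β ε * x ^ 2 := by rw [hB]; ring
    have g5 : Λ * (m ε * ((1 + 1 / ν) * x ^ 2 + (1 + ν) * (r ε * E3)))
        = Λ * (m ε * ((1 + ν) * r ε)) * E3 + Λ * (m ε * (1 + 1 / ν)) * x ^ 2 := by ring
    have g6 : Λ * (4 * (P.c * ε ^ 3 + ε ^ 4) * q0 ^ 2 + 4 * P.τ * (P.c * ε ^ 2 + ε ^ 3) * EQ
      + 2 * (P.c * ε ^ 2 + ε ^ 3) * (1 / P.c + ε ^ 2 / P.c) * E2)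
        = 4 * Λ * (P.c * ε ^ 3 + ε ^ 4) * q0 ^ 2 + Λ * (4 * P.τ * (P.c * ε ^ 2 + ε ^ 3)) * EQ
        + Λ * (2 * (P.c * ε ^ 2 + ε ^ 3) * (1 / P.c + ε ^ 2 / P.c)) * E2 := by ring
    rw [g6] at f2
    rw [g5] at f3
    have g7 : (1 - 3 * ν) * (EQ + ε * K * q0 ^ 2)
        = (1 - 3 * ν) * EQ + (1 - 3 * ν) * (ε * K) * q0 ^ 2 := by ring
    rw [g7] at bQ
    rw [mul_add, mul_add, mul_add]
    have g8 : (4 * Λ * (P.c * ε ^ 3 + ε ^ 4) + (1 - 3 * ν) * (ε * K)) * q0 ^ 2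
      = 4 * Λ * (P.c * ε ^ 3 + ε ^ 4) * q0 ^ 2 + (1 - 3 * ν) * (ε * K) * q0 ^ 2 := by ring
    rw [g8] at hβq
    have g9 : ((1 - 3 * ν) + Λ * (4 * P.τ * (P.c * ε ^ 2 + ε ^ 3))) * EQ
      = (1 - 3 * ν) * EQ + Λ * (4 * P.τ * (P.c * ε ^ 2 + ε ^ 3)) * EQ := by ring
    have g10 : (β ε * (2 * (r ε + ε ^ 2)) + Λ * (m ε * ((1 + ν) * r ε))) * E3
      = β ε * (2 * (r ε + ε ^ 2)) * E3 + Λ * (m ε * ((1 + ν) * r ε)) * E3 := by ring
    have g11 : (2 * β ε + Λ * (m ε * (1 + 1 / ν))) * x ^ 2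
      = 2 * β ε * x ^ 2 + Λ * (m ε * (1 + 1 / ν)) * x ^ 2 := by ring
    rw [g9, g10, g11]
    linarith
  have hx2 : 0 ≤ x ^ 2 := sq_nonneg _
  have k1 := mul_le_mul_of_nonneg_right eQ.le hEQ'
  have k2 := mul_le_mul_of_nonneg_right e2.le hE2'
  have k3 := mul_le_mul_of_nonneg_right e5.le hE5'
  have k4 := mul_le_mul_of_nonneg_right e3.le hE3'
  have k5 := mul_le_mul_of_nonneg_right ex.le hx2
  linarith

end Pool.Agent.Lib.MP_e46711_an.H11
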