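import Pool.Agent.Lib.MP_e46711_an.H11.C1

/-!
# Module C2: the main quadratic inequalities `QFStatement`, `QFavStatement`, `DirStatement`
-/

open Set Filter Topology MeasureTheory intervalIntegral

namespace Pool.Agent.Lib.MP_e46711_an.H11

/-- the final algebra of QF -/
theorem qf_asm {A B D G S1 S2 S3 S4 S5 S6 X Y x2 y2 κ w d ν L L2 p1 p2 p3 p4 e4 e5 c2 Z : ℝ}
    (hA : 0 ≤ A) (hB : 0 ≤ B) (hD : 0 ≤ D) (hG : 0 ≤ G) (hX : 0 ≤ X) (hY : 0 ≤ Y)
    (hL : 0 ≤ L) (hLL : L ≤ L2) (hκ : 0 ≤ κ) (hκL : L2 * κ ≤ ν / 2) (hν : 0 ≤ ν)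
    (hdκ : d ≤ κ) (hdw : d ≤ w) (hp1 : 0 ≤ p1) (hp2 : 0 ≤ p2) (hp3 : 0 ≤ p3) (hp4 : 0 ≤ p4)
    (hκ1 : κ ≤ 1) (hw1 : w ≤ 1) (hw0 : 0 ≤ w)
    (hS2 : 0 ≤ S2) (hS4 : 0 ≤ S4) (hS5 : 0 ≤ S5)
    (b1 : S1 ≤ (1 + κ) * X / 2 + p1 / 4 * A) (b2 : S2 ≤ e4 * x2 + p2 * A)
    (b3 : S3 ≤ (1 + κ) * Y + p1 * B) (b4 : S4 ≤ e5 * y2 + p3 * B)
    (b5 : L2 * S5 ≤ (1 - w) * D + c2 * x2 + p4 * G)
    (b6 : S6 ≤ (1 + κ) * X / 2 + p1 / 4 * G)
    (k4 : L2 * (e4 * x2 + e5 * y2) + c2 * x2 ≤ ν / 2 * (X + Y))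
    (hT : L2 * p1 + L2 * (p2 + p3) + p4 ≤ d / 2) (cA : Z ≤ (1 - κ) * A) :
    d / 2 * (A + (B + (D + G))) + (Z - (L + ν) * (X + Y))
      ≤ (A + (B + (D + G))) - L * ((S1 + S2) + ((S3 + S4) + (S5 + S6))) := by
  have hL2 : 0 ≤ L2 := hL.trans hLL
  set E := A + (B + (D + G)) with hE
  have hE0 : 0 ≤ E := by positivity
  have k1 : L * (S1 + S3 + S6) ≤ (L + ν / 2) * (X + Y) + L2 * (p1 * E) := by
    have j1 : S1 + S3 + S6 ≤ (1 + κ) * (X + Y) + p1 * E := by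
      have i1 := mul_nonneg hp1 hA
      have i2 := mul_nonneg hp1 hD
      have i3 := mul_nonneg hp1 hG
      have i4 : p1 * E = p1 * A + p1 * B + p1 * D + p1 * G := by rw [hE]; ring
      have i5 : (1 + κ) * (X + Y) = (1 + κ) * X / 2 + (1 + κ) * X / 2 + (1 + κ) * Y := by ring
      rw [i4, i5]
      linarith
    have j2 := mul_le_mul_of_nonneg_left j1 hL
    have j3 : L * (1 + κ) ≤ L + ν / 2 := by
      have := mul_le_mul_of_nonneg_right hLL hκ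
      linarith
    have j4 := mul_le_mul_of_nonneg_right j3 (add_nonneg hX hY)
    have j5 := mul_le_mul_of_nonneg_right hLL (mul_nonneg hp1 hE0)
    have j6 : L * ((1 + κ) * (X + Y) + p1 * E) = L * (1 + κ) * (X + Y) + L * (p1 * E) := by ring
    rw [j6] at j2
    linarith
  have k2 : L * (S2 + S4) ≤ L2 * (e4 * x2 + e5 * y2) + L2 * ((p2 + p3) * E) := by
    have j1 := mul_le_mul_of_nonneg_right hLL (add_nonneg hS2 hS4)
    have j2 : S2 + S4 ≤ (e4 * x2 + e5 * y2) + (p2 + p3) * E := by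
      have i1 := mul_nonneg hp2 hB
      have i2 := mul_nonneg hp2 hD
      have i3 := mul_nonneg hp2 hG
      have i4 := mul_nonneg hp3 hA
      have i5 := mul_nonneg hp3 hD
      have i6 := mul_nonneg hp3 hG
      have i7 : (p2 + p3) * E = p2 * A + p2 * B + p2 * D + p2 * G
        + (p3 * A + p3 * B + p3 * D + p3 * G) := by rw [hE]; ring
      rw [i7]
      linarith
    have j3 := mul_le_mul_of_nonneg_left j2 hL2
    rw [mul_add] at j3
    linarith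
  have k3 : L * S5 ≤ (1 - w) * D + c2 * x2 + p4 * E := by
    have j1 := mul_le_mul_of_nonneg_right hLL hS5
    have i1 := mul_nonneg hp4 hA
    have i2 := mul_nonneg hp4 hB
    have i3 := mul_nonneg hp4 hD
    have i4 : p4 * E = p4 * A + p4 * B + p4 * D + p4 * G := by rw [hE]; ring
    rw [i4]
    linarith
  have k5 := mul_le_mul_of_nonneg_right hT hE0
  have k6 : (L2 * p1 + L2 * (p2 + p3) + p4) * E
    = L2 * (p1 * E) + L2 * ((p2 + p3) * E) + p4 * E := by ring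
  rw [k6] at k5
  have k7 : d * E + (1 - κ) * A ≤ A + (B + (w * D + G)) := by
    have j1 := mul_le_mul_of_nonneg_right hdκ hA
    have j2 := mul_le_mul_of_nonneg_right hdw hD
    have j3 := mul_le_mul_of_nonneg_right (hdκ.trans hκ1) hB
    have j4 := mul_le_mul_of_nonneg_right (hdκ.trans hκ1) hG
    have j5 : d * E = d * A + d * B + d * D + d * G := by rw [hE]; ring
    rw [j5]
    linarith
  have k9 : L * ((S1 + S2) + ((S3 + S4) + (S5 + S6)))
    = L * (S1 + S3 + S6) + L * (S2 + S4) + L * S5 := by ring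
  have k10 : (L + ν) * (X + Y) = (L + ν / 2) * (X + Y) + ν / 2 * (X + Y) := by ring
  have k11 : d / 2 * E = d * E - d / 2 * E := by ring
  rw [k9, k10]
  have k12 : (1 - w) * D = D - w * D := by ring
  rw [k12] at k3
  linarith

/-- C2a. -/
theorem c2_qf (hpas : PassiveStatement) : QFStatement := by
  intro P ν hν
  obtain ⟨n, ⟨hn0, hn1⟩, C, hC, hev⟩ := hpas P
  have hL2 : 0 < P.L2 := by have := P.hL0; have := P.hL01; have := P.hL12; linarith
  have hM := P.hM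
  have hm := P.hm
  have hMm := P.hMm
  have hc := P.hc
  have hν0 : 0 < ν := hν.1
  have hν1 : ν < 1 := hν.2
  set κ : ℝ := ν / (2 * (1 + P.L2)) with hκ
  have hκ0 : 0 < κ := by positivity
  have hκν : κ ≤ ν / 2 := by
    rw [hκ]
    apply div_le_div_of_nonneg_left hν0.le (by norm_num)
    linarith
  have hκL : P.L2 * κ ≤ ν / 2 := by
    rw [hκ, mul_div_assoc', div_le_div_iff₀ (by positivity) (by norm_num)]
    nlinarith
  set w : ℝ := 2 * n / (1 + n) with hw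
  have hw0 : 0 < w := by positivity
  have hw1 : w < 1 := by rw [hw, div_lt_one (by linarith)]; linarith
  set d : ℝ := min κ w with hd
  have hd0 : 0 < d := lt_min hκ0 hw0
  have hdκ : d ≤ κ := min_le_left _ _
  have hdw : d ≤ w := min_le_right _ _
  refine ⟨d / 2, by positivity, ?_⟩
  set R04 : ℝ → ℝ := fun ε => ε ^ 3 / (2 * P.M) + 2 * ε ^ 3 + ε with hR04
  set T : ℝ → ℝ := fun ε => P.L2 * (1 + 1 / κ) * ε ^ 2 + P.L2 * (4 * ε * R04 ε
    + 2 * P.m * ε * (ε ^ 3 / P.m + ε / P.c)) + C * (ε ^ 3 / P.M) with hT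
  have e1 : ∀ᶠ ε in 𝓝[>] (0:ℝ), T ε < d / 2 :=
    ev_lt (by simp only [hT, hR04]; fun_prop) (by simp [hT]; positivity)
  have e2 : ∀ᶠ ε in 𝓝[>] (0:ℝ), (1 - ν) * (1 + (ε ^ 2 / (2 * P.M) + 2 * ε ^ 2)) < 1 - κ :=
    ev_lt (F := fun ε => (1 - ν) * (1 + (ε ^ 2 / (2 * P.M) + 2 * ε ^ 2))) (by fun_prop)
      (by simp; linarith)
  have e3 : ∀ᶠ ε in 𝓝[>] (0:ℝ), ε * (4 * ε * P.L2 + 2 * C) < ν / 2 * P.M :=
    ev_lt (F := fun ε => ε * (4 * ε * P.L2 + 2 * C)) (by fun_prop) (by simp; positivity)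
  have e4 : ∀ᶠ ε in 𝓝[>] (0:ℝ), ε * (2 * P.m * ε * P.L2) < ν / 2 * P.m :=
    ev_lt (F := fun ε => ε * (2 * P.m * ε * P.L2)) (by fun_prop) (by simp; positivity)
  filter_upwards [hev, e1, e2, e3, e4, self_mem_nhdsWithin] with ε hev e1 e2 e3 e4 hε
  have hε : 0 < ε := hε
  intro h H u hu hper L hL
  have hcont := ring_cont H
  have hpos := H.pos
  have hpos' : ∀ {s t : ℝ}, ∀ r ∈ Icc s t, 0 ≤ h r := fun r _ => (hpos r).le
  have o01 := lt01 (P := P) hε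
  have o12 := lt12 (P := P) hε
  have o23 := lt23 (P := P) hε
  have o34 := lt34 (P := P) hε
  have o45 := lt45 (P := P) hε
  have o56 := lt56 (P := P) hε
  have o614 : P.s6 ε ≤ P.s14 ε := by
    have := lt67 (P := P) hε
    have := lt78 (P := P) hε
    have := lt89 (P := P) hε
    have := lt910 (P := P) hε
    have := lt1011 (P := P) hε
    have := lt1112 (P := P) hε
    have := lt1213 (P := P) hε
    have := lt1314 (P := P) hε
    linarith
  have o14 := lt14 (P := P) hε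
  have hu01 : Lip u 0 (P.s1 ε) := lip_mono hu le_rfl (by linarith)
  have hu04 : Lip u 0 (P.s4 ε) := lip_mono hu le_rfl (by linarith)
  have hu14 : Lip u (P.s1 ε) (P.s4 ε) := lip_mono hu (by linarith) (by linarith)
  have hu46 : Lip u (P.s4 ε) (P.s6 ε) := lip_mono hu (by linarith) (by linarith)
  have hu45 : Lip u (P.s4 ε) (P.s5 ε) := lip_mono hu (by linarith) (by linarith)
  have hu4e : Lip u (P.s4 ε) (P.ell ε) := lip_mono hu (by linarith) (by linarith)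
  have hu6e : Lip u (P.s6 ε) (P.ell ε) := lip_mono hu (by linarith) (by linarith)
  have hu614 : Lip u (P.s6 ε) (P.s14 ε) := lip_mono hu (by linarith) (by linarith)
  have hu14e : Lip u (P.s14 ε) (P.ell ε) := lip_mono hu (by linarith) (by linarith)
  set A := En h u 0 (P.s4 ε) with hA
  set B := En h u (P.s4 ε) (P.s6 ε) with hB
  set D := En h u (P.s6 ε) (P.s14 ε) with hD
  set G := En h u (P.s14 ε) (P.ell ε) with hG
  have hA0 : 0 ≤ A := En_nonneg hpos' (by linarith)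
  have hB0 : 0 ≤ B := En_nonneg hpos' (by linarith)
  have hD0 : 0 ≤ D := En_nonneg hpos' (by linarith)
  have hG0 : 0 ≤ G := En_nonneg hpos' (by linarith)
  have hEtot : En h u 0 (P.ell ε) = A + (B + (D + G)) := by
    rw [hD, hG, En_add hcont.continuousOn hu6e (by linarith) (by linarith), hB,
      En_add hcont.continuousOn hu4e (by linarith) (by linarith), hA,
      En_add hcont.continuousOn hu (by linarith) (by linarith)]
  have hStot : Sm h u 0 (P.ell ε) = (Sm h u 0 (P.s1 ε) + Sm h u (P.s1 ε) (P.s4 ε))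
      + ((Sm h u (P.s4 ε) (P.s5 ε) + Sm h u (P.s5 ε) (P.s6 ε))
      + (Sm h u (P.s6 ε) (P.s14 ε) + Sm h u (P.s14 ε) (P.ell ε))) := by
    rw [Sm_add hcont.continuousOn hu6e (by linarith) (by linarith),
      Sm_add hcont.continuousOn hu46 (by linarith) (by linarith),
      Sm_add hcont.continuousOn hu4e (by linarith) (by linarith),
      Sm_add hcont.continuousOn hu04 (by linarith) (by linarith),
      Sm_add hcont.continuousOn hu (by linarith) (by linarith)]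
  set x := u 0 with hx
  set y := u (P.s4 ε) with hy
  have hxe : u (P.ell ε) = x := hper.symm
  -- resistances
  have hRs04 : Rs h 0 (P.s4 ε) ≤ R04 ε := by
    rw [← Rs_add hcont hpos _ (P.s1 ε), ← Rs_add hcont hpos (P.s1 ε) (P.s2 ε),
      ← Rs_add hcont hpos (P.s2 ε) (P.s3 ε)]
    have q1 := rsH H hε
    have q2 := rsJ1 H hε
    have q3 := rsN1 H hε
    have q4 := rsJ2 H hε
    simp only [hR04]
    linarith
  have hRs46 : Rs h (P.s4 ε) (P.s6 ε) ≤ ε ^ 3 / P.m + ε / P.c := by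
    rw [← Rs_add hcont hpos _ (P.s5 ε)]
    have q1 := rsL H hε
    have q2 := rsJ3 H hε
    linarith
  have hMs14 : Ms h (P.s1 ε) (P.s4 ε) ≤ 2 * ε := by
    rw [← Ms_add hcont _ (P.s2 ε), ← Ms_add hcont (P.s2 ε) (P.s3 ε)]
    have q2 := msJ1 H hε
    have q3 := msN1 H hε
    have q4 := msJ2 H hε
    have : P.M * ε + P.m * ε = ε := by rw [← add_mul, hMm, one_mul]
    linarith
  -- pieces
  have b1 : Sm h u 0 (P.s1 ε) ≤ (1 + κ) * (P.M / (2 * ε)) * x ^ 2 + (1 + 1 / κ) * (ε ^ 2 / 4) * A := by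
    have t1 := Sm_le_ref (κ := κ) (r0 := 0) hκ0 hcont hpos o01 le_rfl le_rfl hu01
      ⟨le_rfl, o01⟩ (msH H hε).le (rsH H hε).le
    have t2 : En h u 0 (P.s1 ε) ≤ A := En_mono hcont.continuousOn hpos' hu04 le_rfl o01 (by linarith)
    have t3 : P.M / (2 * ε) * ((1 + κ) * x ^ 2 + (1 + 1 / κ) * (ε ^ 3 / (2 * P.M)
        * En h u 0 (P.s1 ε))) = (1 + κ) * (P.M / (2 * ε)) * x ^ 2
        + (1 + 1 / κ) * (ε ^ 2 / 4) * En h u 0 (P.s1 ε) := by
      field_simp; ring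
    rw [t3] at t1
    have t4 : (1 + 1 / κ) * (ε ^ 2 / 4) * En h u 0 (P.s1 ε) ≤ (1 + 1 / κ) * (ε ^ 2 / 4) * A :=
      mul_le_mul_of_nonneg_left t2 (by positivity)
    linarith
  have b2 : Sm h u (P.s1 ε) (P.s4 ε) ≤ 4 * ε * x ^ 2 + 4 * ε * R04 ε * A := by
    have t1 := Sm_le_ref (κ := 1) (r0 := 0) one_pos hcont hpos (by linarith : P.s1 ε ≤ P.s4 ε)
      o01 le_rfl hu04 ⟨le_rfl, by linarith⟩ hMs14 hRs04
    refine t1.trans (le_of_eq ?_)
    ring
  have b3 : Sm h u (P.s4 ε) (P.s5 ε) ≤ (1 + κ) * (P.m / ε) * y ^ 2 + (1 + 1 / κ) * ε ^ 2 * B := by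
    have t1 := Sm_le_ref (κ := κ) (r0 := P.s4 ε) hκ0 hcont hpos o45 le_rfl le_rfl hu45
      ⟨le_rfl, o45⟩ (msL H hε).le (rsL H hε).le
    have t2 : En h u (P.s4 ε) (P.s5 ε) ≤ B :=
      En_mono hcont.continuousOn hpos' hu46 le_rfl o45 (by linarith)
    have t3 : P.m / ε * ((1 + κ) * y ^ 2 + (1 + 1 / κ) * (ε ^ 3 / P.m
        * En h u (P.s4 ε) (P.s5 ε))) = (1 + κ) * (P.m / ε) * y ^ 2
        + (1 + 1 / κ) * ε ^ 2 * En h u (P.s4 ε) (P.s5 ε) := by
      field_simp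
    rw [t3] at t1
    have t4 : (1 + 1 / κ) * ε ^ 2 * En h u (P.s4 ε) (P.s5 ε) ≤ (1 + 1 / κ) * ε ^ 2 * B :=
      mul_le_mul_of_nonneg_left t2 (by positivity)
    linarith
  have b4 : Sm h u (P.s5 ε) (P.s6 ε) ≤ 2 * P.m * ε * y ^ 2
      + 2 * P.m * ε * (ε ^ 3 / P.m + ε / P.c) * B := by
    have t1 := Sm_le_ref (κ := 1) (r0 := P.s4 ε) one_pos hcont hpos o56
      o45 le_rfl hu46 ⟨le_rfl, by linarith⟩ (msJ3 H hε) hRs46
    refine t1.trans (le_of_eq ?_)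
    ring
  have b6 : Sm h u (P.s14 ε) (P.ell ε) ≤ (1 + κ) * (P.M / (2 * ε)) * x ^ 2
      + (1 + 1 / κ) * (ε ^ 2 / 4) * G := by
    have t1 := Sm_le_ref (κ := κ) (r0 := P.ell ε) hκ0 hcont hpos o14 le_rfl le_rfl hu14e
      ⟨o14, le_rfl⟩ (msH' H hε).le (rsH' H hε).le
    rw [hxe] at t1
    refine t1.trans (le_of_eq ?_)
    rw [← hG]
    field_simp; ring
  have b5 : P.L2 * Sm h u (P.s6 ε) (P.s14 ε) ≤ (1 - w) * D + 2 * C * x ^ 2
      + C * (ε ^ 3 / P.M) * G := by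
    have t1 := hev h H u hu614
    have t2 := pt_le_ref (κ := 1) (r0 := P.ell ε) (r1 := P.s14 ε) one_pos hcont hpos hu14e
      ⟨o14, le_rfl⟩ ⟨le_rfl, o14⟩ (rsH' H hε).le
    rw [hxe, ← hG] at t2
    have t3 : C * u (P.s14 ε) ^ 2 ≤ C * (2 * x ^ 2 + ε ^ 3 / P.M * G) := by
      refine mul_le_mul_of_nonneg_left ?_ hC.le
      refine t2.trans (le_of_eq ?_)
      field_simp; ring
    have t4 : (1 + n) * (P.L2 * Sm h u (P.s6 ε) (P.s14 ε))
        ≤ (1 + n) * ((1 - w) * D + 2 * C * x ^ 2 + C * (ε ^ 3 / P.M) * G) := by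
      have t5 : (1 + n) * ((1 - w) * D + 2 * C * x ^ 2 + C * (ε ^ 3 / P.M) * G)
          = (1 - n) * D + (1 + n) * (C * (2 * x ^ 2 + ε ^ 3 / P.M * G)) := by
        rw [hw]; field_simp; ring
      rw [t5]
      have t6 : 0 ≤ C * (2 * x ^ 2 + ε ^ 3 / P.M * G) := by positivity
      have t7 := mul_nonneg hn0.le t6
      have t8 : (1 + n) * (C * (2 * x ^ 2 + ε ^ 3 / P.M * G))
        = C * (2 * x ^ 2 + ε ^ 3 / P.M * G) + n * (C * (2 * x ^ 2 + ε ^ 3 / P.M * G)) := by ring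
      rw [t8, ← mul_assoc]
      linarith
    exact le_of_mul_le_mul_left t4 (by linarith)
  have b5' : 0 ≤ Sm h u (P.s6 ε) (P.s14 ε) := Sm_nonneg hpos' o614
  -- lower bound for `A`
  have cA : (1 - ν) * (x - y) ^ 2 / ε ≤ (1 - κ) * A := by
    have t1 := osc hcont hpos hu04 ⟨by linarith, le_rfl⟩ ⟨le_rfl, by linarith⟩
      (s := P.s4 ε) (t := 0)
    have t2 : (x - y) ^ 2 ≤ R04 ε * A := t1.trans (mul_le_mul_of_nonneg_right hRs04 hA0)
    have t3 : R04 ε = ε * (1 + (ε ^ 2 / (2 * P.M) + 2 * ε ^ 2)) := by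
      simp only [hR04]; field_simp; ring
    rw [t3] at t2
    rw [div_le_iff₀ hε]
    have t4 := mul_le_mul_of_nonneg_left t2 (by linarith : 0 ≤ 1 - ν)
    have t5 := mul_le_mul_of_nonneg_right e2.le (mul_nonneg hε.le hA0)
    nlinarith
  -- assembly
  rw [hEtot, hStot]
  set X : ℝ := P.M * x ^ 2 / ε with hX
  set Y : ℝ := P.m * y ^ 2 / ε with hY
  have hX0 : 0 ≤ X := by positivity
  have hY0 : 0 ≤ Y := by positivity
  have gX : (1 + κ) * (P.M / (2 * ε)) * x ^ 2 = (1 + κ) * X / 2 := by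
    rw [hX]; field_simp
  have gY : (1 + κ) * (P.m / ε) * y ^ 2 = (1 + κ) * Y := by
    rw [hY]; field_simp
  rw [gX] at b1 b6
  rw [gY] at b3
  have k4 : P.L2 * (4 * ε * x ^ 2 + 2 * P.m * ε * y ^ 2) + 2 * C * x ^ 2 ≤ ν / 2 * (X + Y) := by
    have j1 : (4 * ε * P.L2 + 2 * C) * x ^ 2 ≤ ν / 2 * X := by
      rw [hX, mul_div_assoc', le_div_iff₀ hε]
      have := mul_le_mul_of_nonneg_right e3.le (sq_nonneg x)
      linarith
    have j2 : (2 * P.m * ε * P.L2) * y ^ 2 ≤ ν / 2 * Y := by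
      rw [hY, mul_div_assoc', le_div_iff₀ hε]
      have := mul_le_mul_of_nonneg_right e4.le (sq_nonneg y)
      linarith
    linarith
  have hR0 : 0 ≤ R04 ε := by simp only [hR04]; positivity
  have k8 : ((1 - ν) * (x - y) ^ 2 - (L + ν) * (P.M * x ^ 2 + P.m * y ^ 2)) / ε
      = (1 - ν) * (x - y) ^ 2 / ε - (L + ν) * (X + Y) := by
    rw [hX, hY]; ring
  rw [k8]
  refine qf_asm (κ := κ) (w := w) (p1 := (1 + 1 / κ) * ε ^ 2) (p2 := 4 * ε * R04 ε)
    (p3 := 2 * P.m * ε * (ε ^ 3 / P.m + ε / P.c)) (p4 := C * (ε ^ 3 / P.M)) (L2 := P.L2)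
    (e4 := 4 * ε) (e5 := 2 * P.m * ε) (c2 := 2 * C) (x2 := x ^ 2) (y2 := y ^ 2)
    hA0 hB0 hD0 hG0 hX0 hY0 hL.1 hL.2 hκ0.le hκL hν0.le hdκ hdw (by positivity) (by positivity)
    (by positivity) (by positivity) (by linarith) hw1.le hw0.le
    (Sm_nonneg hpos' (by linarith)) (Sm_nonneg hpos' o56) b5'
    (by linarith) b2 (by linarith) b4 b5 (by linarith) k4 ?_ cA
  have : T ε = P.L2 * ((1 + 1 / κ) * ε ^ 2) + P.L2 * (4 * ε * R04 ε
    + 2 * P.m * ε * (ε ^ 3 / P.m + ε / P.c)) + C * (ε ^ 3 / P.M) := by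
    simp only [hT]; ring
  linarith

end Pool.Agent.Lib.MP_e46711_an.H11
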