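import Pool.Agent.Lib.MP_e46711_an.H11.C2

/-!
# Module C2: `QFavStatement`
-/

open Set Filter Topology MeasureTheory intervalIntegral

namespace Pool.Agent.Lib.MP_e46711_an.H11

theorem int_sub_le {u : ℝ → ℝ} {s t x ω : ℝ} (hst : s ≤ t) (hu : Lip u s t)
    (h : ∀ r ∈ Icc s t, |u r - x| ≤ ω) : |(∫ r in s..t, u r) - (t - s) * x| ≤ ω * (t - s) := by
  have h1 : (∫ r in s..t, u r) - (t - s) * x = ∫ r in s..t, (u r - x) := by
    rw [intervalIntegral.integral_sub]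
    · simp
    · refine ContinuousOn.intervalIntegrable ?_
      rw [uIcc_of_le hst]
      exact lip_cont hu
    · exact intervalIntegrable_const
  rw [h1]
  have h2 := intervalIntegral.norm_integral_le_of_norm_le_const (a := s) (b := t) (C := ω)
    (f := fun r => u r - x) (fun r hr => by
      rw [uIoc_of_le hst] at hr
      exact h r ⟨hr.1.le, hr.2⟩)
  rw [abs_of_nonneg (by linarith : 0 ≤ t - s)] at h2
  exact h2

/-- averages and point values on `H` -/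
theorem av_sub {P : Par} {ε : ℝ} {h u : ℝ → ℝ} (hε : 0 < ε) (H : P.IsRing ε h)
    (hu : Lip u 0 (P.ell ε)) (hper : u 0 = u (P.ell ε)) :
    (P.av ε u - u 0) ^ 2 ≤ ε ^ 3 / (2 * P.M) * En h u 0 (P.ell ε) := by
  have hcont := ring_cont H
  have hpos := H.pos
  have hpos' : ∀ {s t : ℝ}, ∀ r ∈ Icc s t, 0 ≤ h r := fun r _ => (hpos r).le
  have hM := P.hM
  have o01 := lt01 (P := P) hε
  have o14 := lt14 (P := P) hε
  have o1 : P.s1 ε ≤ P.s14 ε := by
    simp only [Par.s1, Par.s14]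
    have := P.hτ
    have : 0 < ε ^ 3 := by positivity
    linarith
  set E := En h u 0 (P.ell ε) with hE
  have hE0 : 0 ≤ E := En_nonneg hpos' (by linarith)
  set ω : ℝ := √(ε ^ 3 / (2 * P.M) * E) with hω
  have hω0 : 0 ≤ ω := Real.sqrt_nonneg _
  have hω2 : ω ^ 2 = ε ^ 3 / (2 * P.M) * E := Real.sq_sqrt (by positivity)
  have c1 : ∀ r ∈ Icc 0 (P.s1 ε), |u r - u 0| ≤ ω := by
    intro r hr
    have t1 := osc (s := 0) (t := r) hcont hpos (lip_mono hu le_rfl (by linarith : P.s1 ε ≤ P.ell ε))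
      ⟨le_rfl, o01⟩ hr
    rw [rsH H hε] at t1
    have t2 : En h u 0 (P.s1 ε) ≤ E := En_mono hcont.continuousOn hpos' hu le_rfl o01 (by linarith)
    have t3 : (u r - u 0) ^ 2 ≤ ε ^ 3 / (2 * P.M) * E :=
      t1.trans (mul_le_mul_of_nonneg_left t2 (by positivity))
    exact Real.abs_le_sqrt t3
  have c2 : ∀ r ∈ Icc (P.s14 ε) (P.ell ε), |u r - u 0| ≤ ω := by
    intro r hr
    have t1 := osc (s := P.ell ε) (t := r) hcont hpos
      (lip_mono hu (by linarith : 0 ≤ P.s14 ε) le_rfl) ⟨o14, le_rfl⟩ hr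
    rw [rsH' H hε, ← hper] at t1
    have t2 : En h u (P.s14 ε) (P.ell ε) ≤ E :=
      En_mono hcont.continuousOn hpos' hu (by linarith) o14 le_rfl
    have t3 : (u r - u 0) ^ 2 ≤ ε ^ 3 / (2 * P.M) * E :=
      t1.trans (mul_le_mul_of_nonneg_left t2 (by positivity))
    exact Real.abs_le_sqrt t3
  have d1 := int_sub_le o01 (lip_mono hu le_rfl (by linarith : P.s1 ε ≤ P.ell ε)) c1
  have d2 := int_sub_le o14 (lip_mono hu (by linarith : 0 ≤ P.s14 ε) le_rfl) c2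
  have e1 : P.s1 ε - 0 = ε / 2 := by simp [Par.s1]
  have e2 : P.ell ε - P.s14 ε = ε / 2 := by simp only [Par.ell, Par.s14]; ring
  rw [e1] at d1
  rw [e2] at d2
  have d3 : |ε * (P.av ε u - u 0)| ≤ ε * ω := by
    have t1 : ε * (P.av ε u - u 0) = ((∫ s in (0:ℝ)..(P.s1 ε), u s) - ε / 2 * u 0)
        + ((∫ s in (P.s14 ε)..(P.ell ε), u s) - ε / 2 * u 0) := by
      simp only [Par.av]; field_simp; ring
    rw [t1]
    refine (abs_add_le _ _).trans ?_
    linarith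
  rw [abs_mul, abs_of_pos hε] at d3
  have d4 : |P.av ε u - u 0| ≤ ω := le_of_mul_le_mul_left d3 hε
  rw [← hω2, ← sq_abs]
  exact pow_le_pow_left₀ (abs_nonneg _) d4 2

/-- averages and point values on `L` -/
theorem bv_sub {P : Par} {ε : ℝ} {h u : ℝ → ℝ} (hε : 0 < ε) (H : P.IsRing ε h)
    (hu : Lip u 0 (P.ell ε)) :
    (P.bv ε u - u (P.s4 ε)) ^ 2 ≤ ε ^ 3 / P.m * En h u 0 (P.ell ε) := by
  have hcont := ring_cont H
  have hpos := H.pos
  have hpos' : ∀ {s t : ℝ}, ∀ r ∈ Icc s t, 0 ≤ h r := fun r _ => (hpos r).le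
  have hm := P.hm
  have o45 := lt45 (P := P) hε
  have o4 : 0 ≤ P.s4 ε := by simp only [Par.s4]; positivity
  have o5 : P.s5 ε ≤ P.ell ε := by
    simp only [Par.s5, Par.ell]
    have := P.hτ
    have : 0 < ε ^ 3 := by positivity
    linarith
  set E := En h u 0 (P.ell ε) with hE
  have hE0 : 0 ≤ E := En_nonneg hpos' (by linarith)
  set ω : ℝ := √(ε ^ 3 / P.m * E) with hω
  have hω0 : 0 ≤ ω := Real.sqrt_nonneg _
  have hω2 : ω ^ 2 = ε ^ 3 / P.m * E := Real.sq_sqrt (by positivity)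
  have hu45 : Lip u (P.s4 ε) (P.s5 ε) := lip_mono hu o4 o5
  have c1 : ∀ r ∈ Icc (P.s4 ε) (P.s5 ε), |u r - u (P.s4 ε)| ≤ ω := by
    intro r hr
    have t1 := osc (s := P.s4 ε) (t := r) hcont hpos hu45 ⟨le_rfl, o45⟩ hr
    rw [rsL H hε] at t1
    have t2 : En h u (P.s4 ε) (P.s5 ε) ≤ E := En_mono hcont.continuousOn hpos' hu o4 o45 o5
    have t3 : (u r - u (P.s4 ε)) ^ 2 ≤ ε ^ 3 / P.m * E :=
      t1.trans (mul_le_mul_of_nonneg_left t2 (by positivity))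
    exact Real.abs_le_sqrt t3
  have d1 := int_sub_le o45 hu45 c1
  have e1 : P.s5 ε - P.s4 ε = ε := by simp only [Par.s4, Par.s5]; ring
  rw [e1] at d1
  have d3 : |ε * (P.bv ε u - u (P.s4 ε))| ≤ ε * ω := by
    have t1 : ε * (P.bv ε u - u (P.s4 ε)) = (∫ s in (P.s4 ε)..(P.s5 ε), u s)
        - ε * u (P.s4 ε) := by
      simp only [Par.bv]; field_simp
    rw [t1]
    linarith
  rw [abs_mul, abs_of_pos hε] at d3
  have d4 : |P.bv ε u - u (P.s4 ε)| ≤ ω := le_of_mul_le_mul_left d3 hε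
  rw [← hω2, ← sq_abs]
  exact pow_le_pow_left₀ (abs_nonneg _) d4 2

/-- the algebra of QFav -/
theorem qfav_asm {a b x y M m ν η η' L L2 ea eb : ℝ} (hM : 0 ≤ M) (hm : 0 ≤ m)
    (hν0 : 0 < ν) (hν1 : ν < 1) (hη : η = ν / 2) (hη0 : 0 < η') (hη' : (L2 + 1) * η' ≤ ν / 2)
    (hL : 0 ≤ L) (hLL : L ≤ L2)
    (ha : (a - x) ^ 2 ≤ ea) (hb : (b - y) ^ 2 ≤ eb) :
    (1 - ν) * (a - b) ^ 2 - (L + ν) * (M * a ^ 2 + m * b ^ 2)
      - (2 * (1 + 1 / η) * (ea + eb) + (L2 + 1) * (1 + 1 / η') * (M * ea + m * eb))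
      ≤ (1 - ν / 2) * (x - y) ^ 2 - (L + ν / 2) * (M * x ^ 2 + m * y ^ 2) := by
  have hη1 : 0 < η := by rw [hη]; linarith
  have hea : 0 ≤ ea := (sq_nonneg _).trans ha
  have heb : 0 ≤ eb := (sq_nonneg _).trans hb
  -- first part
  have h1 := young hη1 (x - y) (a - b)
  have h2 : ((a - b) - (x - y)) ^ 2 ≤ 2 * (ea + eb) := by
    have : ((a - b) - (x - y)) ^ 2 ≤ 2 * (a - x) ^ 2 + 2 * (b - y) ^ 2 := by
      nlinarith [sq_nonneg ((a - x) + (b - y))]
    linarith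
  have h3 : (1 + 1 / η) * ((a - b) - (x - y)) ^ 2 ≤ (1 + 1 / η) * (2 * (ea + eb)) :=
    mul_le_mul_of_nonneg_left h2 (by positivity)
  have h4 : (a - b) ^ 2 ≤ (1 + η) * (x - y) ^ 2 + (1 + 1 / η) * (2 * (ea + eb)) := by linarith
  have h5 : (1 - ν) * (a - b) ^ 2 ≤ (1 - ν / 2) * (x - y) ^ 2 + 2 * (1 + 1 / η) * (ea + eb) := by
    have i1 := mul_le_mul_of_nonneg_left h4 (by linarith : 0 ≤ 1 - ν)
    have i2 : (1 - ν) * (1 + η) ≤ 1 - ν / 2 := by rw [hη]; nlinarith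
    have i3 := mul_le_mul_of_nonneg_right i2 (sq_nonneg (x - y))
    have i4 : 0 ≤ (1 + 1 / η) * (2 * (ea + eb)) := by positivity
    have i5 : (1 - ν) * ((1 + 1 / η) * (2 * (ea + eb))) ≤ 1 * ((1 + 1 / η) * (2 * (ea + eb))) :=
      mul_le_mul_of_nonneg_right (by linarith) i4
    have i6 : (1 - ν) * ((1 + η) * (x - y) ^ 2 + (1 + 1 / η) * (2 * (ea + eb)))
      = (1 - ν) * (1 + η) * (x - y) ^ 2 + (1 - ν) * ((1 + 1 / η) * (2 * (ea + eb))) := by ring
    rw [i6] at i1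
    linarith
  -- second part
  have h6 : (L + ν / 2) * (1 + η') ≤ L + ν := by
    have i1 : (L + ν / 2) * η' ≤ (L2 + 1) * η' :=
      mul_le_mul_of_nonneg_right (by linarith) hη0.le
    linarith
  have h7 := young hη0 a x
  have h8 := young hη0 b y
  have h7' : (1 + 1 / η') * (x - a) ^ 2 ≤ (1 + 1 / η') * ea := by
    refine mul_le_mul_of_nonneg_left ?_ (by positivity)
    have : (x - a) ^ 2 = (a - x) ^ 2 := by ring
    rw [this]; exact ha
  have h8' : (1 + 1 / η') * (y - b) ^ 2 ≤ (1 + 1 / η') * eb := by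
    refine mul_le_mul_of_nonneg_left ?_ (by positivity)
    have : (y - b) ^ 2 = (b - y) ^ 2 := by ring
    rw [this]; exact hb
  have h9 : M * x ^ 2 + m * y ^ 2 ≤ (1 + η') * (M * a ^ 2 + m * b ^ 2)
      + (1 + 1 / η') * (M * ea + m * eb) := by
    have i1 := mul_le_mul_of_nonneg_left (h7.trans (add_le_add_right h7' _)) hM
    have i2 := mul_le_mul_of_nonneg_left (h8.trans (add_le_add_right h8' _)) hm
    linarith
  have hS : 0 ≤ M * a ^ 2 + m * b ^ 2 := by positivity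
  have hS' : 0 ≤ M * ea + m * eb := by positivity
  have h10 : (L + ν / 2) * (M * x ^ 2 + m * y ^ 2) ≤ (L + ν) * (M * a ^ 2 + m * b ^ 2)
      + (L2 + 1) * (1 + 1 / η') * (M * ea + m * eb) := by
    have i1 := mul_le_mul_of_nonneg_left h9 (by linarith : 0 ≤ L + ν / 2)
    have i2 := mul_le_mul_of_nonneg_right h6 hS
    have i3 : 0 ≤ (1 + 1 / η') * (M * ea + m * eb) := by positivity
    have i4 := mul_le_mul_of_nonneg_right (by linarith : L + ν / 2 ≤ L2 + 1) i3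
    have i5 : (L + ν / 2) * ((1 + η') * (M * a ^ 2 + m * b ^ 2)
      + (1 + 1 / η') * (M * ea + m * eb)) = (L + ν / 2) * (1 + η') * (M * a ^ 2 + m * b ^ 2)
      + (L + ν / 2) * ((1 + 1 / η') * (M * ea + m * eb)) := by ring
    rw [i5] at i1
    linarith
  linarith

/-- C2b. -/
theorem c2_qfav (hqf : QFStatement) : QFavStatement := by
  intro P ν hν
  have hν0 : 0 < ν := hν.1
  have hν1 : ν < 1 := hν.2
  obtain ⟨δ, hδ, hev⟩ := hqf P (ν / 2) ⟨by linarith, by linarith⟩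
  have hL2 : 0 < P.L2 := by have := P.hL0; have := P.hL01; have := P.hL12; linarith
  have hM := P.hM
  have hm := P.hm
  set η : ℝ := ν / 2 with hη
  have hη0 : 0 < η := by positivity
  set η' : ℝ := ν / (2 * (P.L2 + 1)) with hη'
  have hη'0 : 0 < η' := by positivity
  have hη'1 : (P.L2 + 1) * η' ≤ ν / 2 := by
    rw [hη']
    refine le_of_eq ?_
    field_simp
  refine ⟨δ / 2, by positivity, ?_⟩
  set T : ℝ → ℝ := fun ε => 2 * (1 + 1 / η) * (ε ^ 2 / (2 * P.M) + ε ^ 2 / P.m)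
    + (P.L2 + 1) * (1 + 1 / η') * (ε ^ 2 / 2 + ε ^ 2) with hT
  have e1 : ∀ᶠ ε in 𝓝[>] (0:ℝ), T ε < δ / 2 :=
    ev_lt (by simp only [hT]; fun_prop) (by simp [hT]; positivity)
  filter_upwards [hev, e1, self_mem_nhdsWithin] with ε hev e1 hε
  have hε : 0 < ε := hε
  intro h H u hu hper L hL
  have hE0 : 0 ≤ En h u 0 (P.ell ε) := by
    refine En_nonneg (fun r _ => (H.pos r).le) ?_
    simp only [Par.ell]
    have := P.hτ
    positivity
  set E := En h u 0 (P.ell ε) with hE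
  have h1 := hev h H u hu hper L hL
  have h2 := qfav_asm (L := L) (L2 := P.L2) (M := P.M) (m := P.m) hM.le hm.le hν0 hν1 hη hη'0
    hη'1 hL.1 hL.2 (av_sub hε H hu hper) (bv_sub hε H hu)
  rw [← hE] at h2
  have h3 : (2 * (1 + 1 / η) * (ε ^ 3 / (2 * P.M) * E + ε ^ 3 / P.m * E)
      + (P.L2 + 1) * (1 + 1 / η') * (P.M * (ε ^ 3 / (2 * P.M) * E) + P.m * (ε ^ 3 / P.m * E)))
      = ε * (T ε * E) := by
    simp only [hT]
    field_simp
  rw [h3] at h2
  have h4 : T ε * E ≤ δ / 2 * E := mul_le_mul_of_nonneg_right e1.le hE0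
  have h5 : ((1 - ν) * (P.av ε u - P.bv ε u) ^ 2
      - (L + ν) * (P.M * P.av ε u ^ 2 + P.m * P.bv ε u ^ 2)) / ε - T ε * E
      ≤ ((1 - ν / 2) * (u 0 - u (P.s4 ε)) ^ 2
        - (L + ν / 2) * (P.M * u 0 ^ 2 + P.m * u (P.s4 ε) ^ 2)) / ε := by
    rw [le_div_iff₀ hε, sub_mul, div_mul_cancel₀ _ hε.ne']
    linarith
  linarith

end Pool.Agent.Lib.MP_e46711_an.H11
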