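import Pool.Agent.Lib.MP_e46711_an.H11.C2b

/-!
# Module C2: `DirStatement`
-/

open Set Filter Topology MeasureTheory intervalIntegral

namespace Pool.Agent.Lib.MP_e46711_an.H11

/-- the algebra of Dir -/
theorem dir_asm {A5 A6 D G S1 S2 S3 S4 S5 S6 q0 L2 mu ν w f1 f2 f3 f4 c4 : ℝ}
    (hA5 : 0 ≤ A5) (hD : 0 ≤ D) (hG : 0 ≤ G) (hA56 : A5 ≤ A6)
    (hq0 : 0 ≤ q0) (hf1 : 0 ≤ f1) (hf2 : 0 ≤ f2) (hmu : 0 ≤ mu)
    (b1 : S1 ≤ f1 * A5) (b2 : S2 ≤ f2 * A5) (b3 : S3 ≤ mu * A5) (b4 : S4 ≤ f3 * A6)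
    (b5 : L2 * S5 ≤ (1 - w) * D + c4 * G) (b6 : S6 ≤ f4 * G)
    (hw : ν ≤ w) (h6 : q0 * (f1 + f2 + f3 + mu) ≤ 1 - ν) (hg : q0 * f4 + c4 ≤ 1 - ν) :
    q0 * (((S1 + S2) + (S3 + S4)) + S6) + L2 * S5 ≤ (1 - ν) * (A6 + (D + G)) := by
  have i1 := mul_le_mul_of_nonneg_left hA56 hf1
  have i2 := mul_le_mul_of_nonneg_left hA56 hf2
  have i3 := mul_le_mul_of_nonneg_left hA56 hmu
  have i4 : (S1 + S2) + (S3 + S4) ≤ (f1 + f2 + f3 + mu) * A6 := by
    have : (f1 + f2 + f3 + mu) * A6 = f1 * A6 + f2 * A6 + f3 * A6 + mu * A6 := by ring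
    rw [this]; linarith
  have i5 := mul_le_mul_of_nonneg_left i4 hq0
  have i6 := mul_le_mul_of_nonneg_left b6 hq0
  have i7 := mul_le_mul_of_nonneg_right h6 (hA5.trans hA56)
  have i8 := mul_le_mul_of_nonneg_right hg hG
  have i9 := mul_le_mul_of_nonneg_right hw hD
  have i10 : q0 * ((f1 + f2 + f3 + mu) * A6) = q0 * (f1 + f2 + f3 + mu) * A6 := by ring
  rw [i10] at i5
  have i11 : (q0 * f4 + c4) * G = q0 * (f4 * G) + c4 * G := by ring
  rw [i11] at i8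
  linarith

/-- C2c. -/
theorem c2_dir (hpas : PassiveStatement) : DirStatement := by
  intro P
  obtain ⟨n, ⟨hn0, hn1⟩, C, hC, hev⟩ := hpas P
  have hL2 : 0 < P.L2 := by have := P.hL0; have := P.hL01; have := P.hL12; linarith
  have hM := P.hM
  have hm := P.hm
  have hMm := P.hMm
  have hc := P.hc
  have hp1 := P.hp1
  set w : ℝ := 2 * n / (1 + n) with hw
  have hw0 : 0 < w := by positivity
  have hw1 : w < 1 := by rw [hw, div_lt_one (by linarith)]; linarith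
  set q : ℝ := (1 - P.p) * P.L2 * P.m with hq
  have hq1 : q < 1 := P.hnear
  have hq0 : 0 ≤ q := by
    have : 0 < 1 - P.p := by linarith
    positivity
  set ν : ℝ := min (1 - q) w / 2 with hν
  have hmin : 0 < min (1 - q) w := lt_min (by linarith) hw0
  have hν0 : 0 < ν := by positivity
  have hνq : ν < 1 - q := by
    have := min_le_left (1 - q) w
    linarith
  have hνw : ν < w := by
    have := min_le_right (1 - q) w
    linarith
  refine ⟨ν, ⟨hν0, by linarith⟩, ?_⟩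
  set R04 : ℝ → ℝ := fun ε => ε ^ 3 / (2 * P.M) + 2 * ε ^ 3 + ε with hR04
  set R05 : ℝ → ℝ := fun ε => R04 ε + ε ^ 3 / P.m with hR05
  set R06 : ℝ → ℝ := fun ε => R05 ε + ε / P.c with hR06
  set ρ : ℝ → ℝ := fun ε => ε ^ 2 / (2 * P.M) + 2 * ε ^ 2 + ε ^ 2 / P.m with hρ
  have e1 : ∀ᶠ ε in 𝓝[>] (0:ℝ), (1 - P.p) * P.L2 * (ε ^ 2 / 4 + 2 * ε * R04 ε
      + P.m * ε * R06 ε + P.m * (1 + ρ ε)) < 1 - ν :=
    ev_lt (F := fun ε => (1 - P.p) * P.L2 * (ε ^ 2 / 4 + 2 * ε * R04 ε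
      + P.m * ε * R06 ε + P.m * (1 + ρ ε))) (by simp only [hR06, hR05, hR04, hρ]; fun_prop)
      (by
        simp only [hρ]
        have : (1 - P.p) * P.L2 * ((0:ℝ) ^ 2 / 4 + 2 * 0 * R04 0
          + P.m * 0 * R06 0 + P.m * (1 + (0 ^ 2 / (2 * P.M) + 2 * 0 ^ 2 + 0 ^ 2 / P.m))) = q := by
          rw [hq]; ring
        rw [this]; linarith)
  have e2 : ∀ᶠ ε in 𝓝[>] (0:ℝ), (1 - P.p) * P.L2 * (ε ^ 2 / 4) + C * (ε ^ 3 / (2 * P.M)) < 1 - ν :=
    ev_lt (F := fun ε => (1 - P.p) * P.L2 * (ε ^ 2 / 4) + C * (ε ^ 3 / (2 * P.M))) (by fun_prop)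
      (by simp; linarith)
  filter_upwards [hev, e1, e2, self_mem_nhdsWithin] with ε hev e1 e2 hε
  have hε : 0 < ε := hε
  intro h H u hu hu0 hue
  have hcont := ring_cont H
  have hpos := H.pos
  have hpos' : ∀ {s t : ℝ}, ∀ r ∈ Icc s t, 0 ≤ h r := fun r _ => (hpos r).le
  have o01 := lt01 (P := P) hε
  have o12 := lt12 (P := P) hε
  have o23 := lt23 (P := P) hε
  have o34 := lt34 (P := P) hε
  have o45 := lt45 (P := P) hε
  have o56 := lt56 (P := P) hε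
  have o614 : P.s6 ε ≤ P.s14 ε := by
    simp only [Par.s6, Par.s14]
    have := P.hτ
    have : 0 < ε ^ 3 := by positivity
    linarith
  have o14 := lt14 (P := P) hε
  have hu01 : Lip u 0 (P.s1 ε) := lip_mono hu le_rfl (by linarith)
  have hu04 : Lip u 0 (P.s4 ε) := lip_mono hu le_rfl (by linarith)
  have hu05 : Lip u 0 (P.s5 ε) := lip_mono hu le_rfl (by linarith)
  have hu06 : Lip u 0 (P.s6 ε) := lip_mono hu le_rfl (by linarith)
  have hu14 : Lip u (P.s1 ε) (P.s4 ε) := lip_mono hu (by linarith) (by linarith)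
  have hu16 : Lip u (P.s1 ε) (P.s6 ε) := lip_mono hu (by linarith) (by linarith)
  have hu46 : Lip u (P.s4 ε) (P.s6 ε) := lip_mono hu (by linarith) (by linarith)
  have hu45 : Lip u (P.s4 ε) (P.s5 ε) := lip_mono hu (by linarith) (by linarith)
  have hu56 : Lip u (P.s5 ε) (P.s6 ε) := lip_mono hu (by linarith) (by linarith)
  have hu6e : Lip u (P.s6 ε) (P.ell ε) := lip_mono hu (by linarith) (by linarith)
  have hu614 : Lip u (P.s6 ε) (P.s14 ε) := lip_mono hu (by linarith) (by linarith)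
  have hu14e : Lip u (P.s14 ε) (P.ell ε) := lip_mono hu (by linarith) (by linarith)
  set A5 := En h u 0 (P.s5 ε) with hA5
  set A6 := En h u 0 (P.s6 ε) with hA6
  set D := En h u (P.s6 ε) (P.s14 ε) with hD
  set G := En h u (P.s14 ε) (P.ell ε) with hG
  have hA50 : 0 ≤ A5 := En_nonneg hpos' (by linarith)
  have hA56 : A5 ≤ A6 := En_mono hcont.continuousOn hpos' hu06 le_rfl (by linarith) o56
  have hD0 : 0 ≤ D := En_nonneg hpos' (by linarith)
  have hG0 : 0 ≤ G := En_nonneg hpos' (by linarith)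
  have hEtot : En h u 0 (P.ell ε) = A6 + (D + G) := by
    rw [hD, hG, En_add hcont.continuousOn hu6e (by linarith) (by linarith), hA6,
      En_add hcont.continuousOn hu (by linarith) (by linarith)]
  have hStot : Sm h u 0 (P.s6 ε) = (Sm h u 0 (P.s1 ε) + Sm h u (P.s1 ε) (P.s4 ε))
      + (Sm h u (P.s4 ε) (P.s5 ε) + Sm h u (P.s5 ε) (P.s6 ε)) := by
    rw [Sm_add hcont.continuousOn hu46 (by linarith) (by linarith),
      Sm_add hcont.continuousOn hu04 (by linarith) (by linarith),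
      Sm_add hcont.continuousOn hu06 (by linarith) (by linarith)]
  -- resistances
  have hRs04 : Rs h 0 (P.s4 ε) ≤ R04 ε := by
    rw [← Rs_add hcont hpos _ (P.s1 ε), ← Rs_add hcont hpos (P.s1 ε) (P.s2 ε),
      ← Rs_add hcont hpos (P.s2 ε) (P.s3 ε)]
    have q1 := rsH H hε
    have q2 := rsJ1 H hε
    have q3 := rsN1 H hε
    have q4 := rsJ2 H hε
    simp only [hR04]
    linarith
  have hRs05 : Rs h 0 (P.s5 ε) ≤ R05 ε := by
    rw [← Rs_add hcont hpos _ (P.s4 ε)]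
    have q1 := rsL H hε
    simp only [hR05]
    linarith
  have hRs06 : Rs h 0 (P.s6 ε) ≤ R06 ε := by
    rw [← Rs_add hcont hpos _ (P.s5 ε)]
    have q1 := rsJ3 H hε
    simp only [hR06]
    linarith
  have hMs14 : Ms h (P.s1 ε) (P.s4 ε) ≤ 2 * ε := by
    rw [← Ms_add hcont _ (P.s2 ε), ← Ms_add hcont (P.s2 ε) (P.s3 ε)]
    have q2 := msJ1 H hε
    have q3 := msN1 H hε
    have q4 := msJ2 H hε
    have : P.M * ε + P.m * ε = ε := by rw [← add_mul, hMm, one_mul]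
    linarith
  have hR04' : 0 ≤ R04 ε := by simp only [hR04]; positivity
  have hR06' : 0 ≤ R06 ε := by simp only [hR06, hR05, hR04]; positivity
  have hρ' : 0 ≤ ρ ε := by simp only [hρ]; positivity
  -- sup bounds
  have sup0 : ∀ {b R' : ℝ}, 0 ≤ b → b ≤ P.ell ε → Rs h 0 b ≤ R' → ∀ r ∈ Icc 0 b,
      u r ^ 2 ≤ R' * En h u 0 b := by
    intro b R' hb hbe hR r hr
    have t1 := osc (s := 0) (t := r) hcont hpos (lip_mono hu le_rfl hbe) ⟨le_rfl, hb⟩ hr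
    rw [hu0, sub_zero] at t1
    exact t1.trans (mul_le_mul_of_nonneg_right hR (En_nonneg hpos' hb))
  have b1 : Sm h u 0 (P.s1 ε) ≤ ε ^ 2 / 4 * A5 := by
    have t1 := Sm_le hcont hpos o01 hu01 (sup0 o01 (by linarith) (rsH H hε).le)
    rw [msH H hε] at t1
    have t2 : En h u 0 (P.s1 ε) ≤ A5 := En_mono hcont.continuousOn hpos' hu05 le_rfl o01 (by linarith)
    have t3 : P.M / (2 * ε) * (ε ^ 3 / (2 * P.M) * En h u 0 (P.s1 ε))
        = ε ^ 2 / 4 * En h u 0 (P.s1 ε) := by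
      field_simp; ring
    rw [t3] at t1
    exact t1.trans (mul_le_mul_of_nonneg_left t2 (by positivity))
  have b2 : Sm h u (P.s1 ε) (P.s4 ε) ≤ 2 * ε * R04 ε * A5 := by
    have t0 := sup0 (by linarith : 0 ≤ P.s4 ε) (by linarith) hRs04
    have t1 := Sm_le hcont hpos (by linarith : P.s1 ε ≤ P.s4 ε) hu14
      (B := R04 ε * En h u 0 (P.s4 ε)) (fun r hr => t0 r ⟨o01.trans hr.1, hr.2⟩)
    have t2 : En h u 0 (P.s4 ε) ≤ A5 :=
      En_mono hcont.continuousOn hpos' hu05 le_rfl (by linarith) o45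
    have t3 : 0 ≤ R04 ε * En h u 0 (P.s4 ε) := mul_nonneg hR04' (En_nonneg hpos' (by linarith))
    calc Sm h u (P.s1 ε) (P.s4 ε) ≤ Ms h (P.s1 ε) (P.s4 ε) * (R04 ε * En h u 0 (P.s4 ε)) := t1
      _ ≤ 2 * ε * (R04 ε * En h u 0 (P.s4 ε)) := mul_le_mul_of_nonneg_right hMs14 t3
      _ = 2 * ε * R04 ε * En h u 0 (P.s4 ε) := by ring
      _ ≤ 2 * ε * R04 ε * A5 := mul_le_mul_of_nonneg_left t2 (by positivity)
  have b3 : Sm h u (P.s4 ε) (P.s5 ε) ≤ P.m * (1 + ρ ε) * A5 := by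
    have t0 := sup0 (by linarith : 0 ≤ P.s5 ε) (by linarith) hRs05
    have t1 := Sm_le hcont hpos o45 hu45
      (B := R05 ε * En h u 0 (P.s5 ε)) (fun r hr => t0 r ⟨by linarith [hr.1], hr.2⟩)
    rw [msL H hε] at t1
    refine t1.trans (le_of_eq ?_)
    rw [← hA5]
    simp only [hR05, hR04, hρ]
    field_simp
    ring
  have b4 : Sm h u (P.s5 ε) (P.s6 ε) ≤ P.m * ε * R06 ε * A6 := by
    have t0 := sup0 (by linarith : 0 ≤ P.s6 ε) (by linarith) hRs06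
    have t1 := Sm_le hcont hpos o56 hu56
      (B := R06 ε * En h u 0 (P.s6 ε)) (fun r hr => t0 r ⟨by linarith [hr.1], hr.2⟩)
    have t3 : 0 ≤ R06 ε * En h u 0 (P.s6 ε) := mul_nonneg hR06' (hA50.trans hA56)
    calc Sm h u (P.s5 ε) (P.s6 ε) ≤ Ms h (P.s5 ε) (P.s6 ε) * (R06 ε * En h u 0 (P.s6 ε)) := t1
      _ ≤ P.m * ε * (R06 ε * En h u 0 (P.s6 ε)) := mul_le_mul_of_nonneg_right (msJ3 H hε) t3
      _ = P.m * ε * R06 ε * A6 := by rw [← hA6]; ring
  have sup1 : ∀ r ∈ Icc (P.s14 ε) (P.ell ε), u r ^ 2 ≤ ε ^ 3 / (2 * P.M) * G := by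
    intro r hr
    have t1 := osc (s := P.ell ε) (t := r) hcont hpos hu14e ⟨o14, le_rfl⟩ hr
    rw [hue, sub_zero, rsH' H hε] at t1
    exact t1
  have b6 : Sm h u (P.s14 ε) (P.ell ε) ≤ ε ^ 2 / 4 * G := by
    have t1 := Sm_le hcont hpos o14 hu14e sup1
    rw [msH' H hε] at t1
    refine t1.trans (le_of_eq ?_)
    field_simp; ring
  have b5 : P.L2 * Sm h u (P.s6 ε) (P.s14 ε) ≤ (1 - w) * D + C * (ε ^ 3 / (2 * P.M)) * G := by
    have t1 := hev h H u hu614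
    have t2 := sup1 (P.s14 ε) ⟨le_rfl, o14⟩
    have t3 : C * u (P.s14 ε) ^ 2 ≤ C * (ε ^ 3 / (2 * P.M)) * G := by
      rw [mul_assoc]
      exact mul_le_mul_of_nonneg_left t2 hC.le
    have t4 : (1 + n) * (P.L2 * Sm h u (P.s6 ε) (P.s14 ε))
        ≤ (1 + n) * ((1 - w) * D + C * (ε ^ 3 / (2 * P.M)) * G) := by
      have t5 : (1 + n) * ((1 - w) * D + C * (ε ^ 3 / (2 * P.M)) * G)
          = (1 - n) * D + (C * (ε ^ 3 / (2 * P.M)) * G + n * (C * (ε ^ 3 / (2 * P.M)) * G)) := by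
        rw [hw]; field_simp; ring
      rw [t5, ← mul_assoc]
      have t6 : 0 ≤ C * (ε ^ 3 / (2 * P.M)) * G := by positivity
      have t7 := mul_nonneg hn0.le t6
      linarith
    exact le_of_mul_le_mul_left t4 (by linarith)
  rw [hEtot, hStot]
  refine dir_asm (A5 := A5) (f1 := ε ^ 2 / 4) (f2 := 2 * ε * R04 ε) (f3 := P.m * ε * R06 ε)
    (f4 := ε ^ 2 / 4) (mu := P.m * (1 + ρ ε)) (c4 := C * (ε ^ 3 / (2 * P.M))) (w := w)
    hA50 hD0 hG0 hA56 ?_ (by positivity) (by positivity) (by positivity) b1 b2 b3 b4 b5 b6 hνw.le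
    e1.le e2.le
  have : 0 < 1 - P.p := by linarith
  positivity

/-- C2. -/
theorem c2 (hpas : PassiveStatement) : QFStatement ∧ QFavStatement ∧ DirStatement :=
  ⟨c2_qf hpas, c2_qfav (c2_qf hpas), c2_dir hpas⟩

theorem qf : QFStatement := c2_qf c1
theorem qfav : QFavStatement := c2_qfav qf
theorem dir : DirStatement := c2_dir c1

end Pool.Agent.Lib.MP_e46711_an.H11
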