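import Pool.Agent.Lib.MP_e46711_an.DefsC

/-!
# Tools for the one-dimensional ring (modules C1, C2, ...)

Integrability, additivity of energies, the Cauchy-Schwarz inequality with masses `Ms` and
resistances `Rs`, masses and resistances of the pieces of the ring.
-/

open Set Filter Topology MeasureTheory intervalIntegral

namespace Pool.Agent.Lib.MP_e46711_an.H11

/-- mass -/
noncomputable def Ms (h : ℝ → ℝ) (s t : ℝ) : ℝ := ∫ r in s..t, h r
/-- resistance -/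
noncomputable def Rs (h : ℝ → ℝ) (s t : ℝ) : ℝ := ∫ r in s..t, 1 / h r

section basic

variable {h u v : ℝ → ℝ} {a b s t : ℝ}

theorem lip_mono (hu : Lip u a b) (h1 : a ≤ s) (h2 : t ≤ b) : Lip u s t := by
  obtain ⟨K, hK⟩ := hu
  exact ⟨K, hK.mono (Icc_subset_Icc h1 h2)⟩

theorem lip_ac (hu : Lip u s t) (hst : s ≤ t) : AbsolutelyContinuousOnInterval u s t := by
  obtain ⟨K, hK⟩ := hu
  rw [← uIcc_of_le hst] at hK
  exact hK.absolutelyContinuousOnInterval

theorem lip_cont (hu : Lip u s t) : ContinuousOn u (Icc s t) := by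
  obtain ⟨K, hK⟩ := hu
  exact hK.continuousOn

theorem lip_bound (hu : Lip u s t) : ∃ K, 0 ≤ K ∧ ∀ r ∈ Ioo s t, |deriv u r| ≤ K := by
  obtain ⟨K, hK⟩ := hu
  refine ⟨K, K.2, fun r hr => ?_⟩
  have := norm_deriv_le_of_lipschitzOn (Icc_mem_nhds hr.1 hr.2) hK
  simpa using this

/-- bounded measurable functions are interval integrable -/
theorem ii_of_bdd {F : ℝ → ℝ} (hst : s ≤ t) (hF : Measurable F) (K : ℝ)
    (hK : ∀ r ∈ Ioo s t, |F r| ≤ K) : IntervalIntegrable F volume s t := by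
  rw [intervalIntegrable_iff_integrableOn_Ioo_of_le hst]
  refine Measure.integrableOn_of_bounded (M := K) (by simp) hF.aestronglyMeasurable ?_
  rw [ae_restrict_iff' measurableSet_Ioo]
  exact Eventually.of_forall fun r hr => hK r hr

theorem ii_deriv (hu : Lip u s t) (hst : s ≤ t) : IntervalIntegrable (deriv u) volume s t := by
  obtain ⟨K, -, hK⟩ := lip_bound hu
  exact ii_of_bdd hst (measurable_deriv u) K hK

theorem ii_deriv_mul (hu : Lip u s t) (hv : Lip v s t) (hst : s ≤ t) :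
    IntervalIntegrable (fun r => deriv u r * deriv v r) volume s t := by
  obtain ⟨K, hK0, hK⟩ := lip_bound hu
  obtain ⟨K', hK0', hK'⟩ := lip_bound hv
  refine ii_of_bdd hst ((measurable_deriv u).mul (measurable_deriv v)) (K * K') fun r hr => ?_
  rw [abs_mul]
  exact mul_le_mul (hK r hr) (hK' r hr) (abs_nonneg _) hK0

theorem ii_deriv_sq (hu : Lip u s t) (hst : s ≤ t) :
    IntervalIntegrable (fun r => deriv u r ^ 2) volume s t := by
  have := ii_deriv_mul hu hu hst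
  simpa [sq] using this

theorem ii_En (hc : ContinuousOn h (Icc s t)) (hu : Lip u s t) (hst : s ≤ t) :
    IntervalIntegrable (fun r => h r * deriv u r ^ 2) volume s t := by
  refine (ii_deriv_sq hu hst).continuousOn_mul ?_
  rwa [uIcc_of_le hst]

theorem ii_Sm (hc : ContinuousOn h (Icc s t)) (hu : Lip u s t) (hst : s ≤ t) :
    IntervalIntegrable (fun r => h r * u r ^ 2) volume s t := by
  refine ContinuousOn.intervalIntegrable ?_
  rw [uIcc_of_le hst]
  exact hc.mul ((lip_cont hu).pow 2)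

theorem En_nonneg (hp : ∀ r ∈ Icc s t, 0 ≤ h r) (hst : s ≤ t) : 0 ≤ En h u s t :=
  integral_nonneg hst fun r hr => mul_nonneg (hp r hr) (sq_nonneg _)

theorem Sm_nonneg (hp : ∀ r ∈ Icc s t, 0 ≤ h r) (hst : s ≤ t) : 0 ≤ Sm h u s t :=
  integral_nonneg hst fun r hr => mul_nonneg (hp r hr) (sq_nonneg _)

theorem En_add (hc : ContinuousOn h (Icc a b)) (hu : Lip u a b) (h1 : a ≤ s) (h2 : s ≤ b) :
    En h u a s + En h u s b = En h u a b :=
  integral_add_adjacent_intervals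
    (ii_En (hc.mono (Icc_subset_Icc le_rfl h2)) (lip_mono hu le_rfl h2) h1)
    (ii_En (hc.mono (Icc_subset_Icc h1 le_rfl)) (lip_mono hu h1 le_rfl) h2)

theorem Sm_add (hc : ContinuousOn h (Icc a b)) (hu : Lip u a b) (h1 : a ≤ s) (h2 : s ≤ b) :
    Sm h u a s + Sm h u s b = Sm h u a b :=
  integral_add_adjacent_intervals
    (ii_Sm (hc.mono (Icc_subset_Icc le_rfl h2)) (lip_mono hu le_rfl h2) h1)
    (ii_Sm (hc.mono (Icc_subset_Icc h1 le_rfl)) (lip_mono hu h1 le_rfl) h2)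

theorem Ms_add (hc : Continuous h) (a s b : ℝ) : Ms h a s + Ms h s b = Ms h a b :=
  integral_add_adjacent_intervals (hc.intervalIntegrable _ _) (hc.intervalIntegrable _ _)

theorem Rs_add (hc : Continuous h) (hp : ∀ r, 0 < h r) (a s b : ℝ) :
    Rs h a s + Rs h s b = Rs h a b := by
  have hc' : Continuous fun r => 1 / h r := continuous_const.div hc fun r => (hp r).ne'
  exact integral_add_adjacent_intervals (hc'.intervalIntegrable _ _) (hc'.intervalIntegrable _ _)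

theorem Ms_nonneg (hp : ∀ r, 0 < h r) (hst : s ≤ t) : 0 ≤ Ms h s t :=
  integral_nonneg hst fun r _ => (hp r).le

theorem Rs_nonneg (hp : ∀ r, 0 < h r) (hst : s ≤ t) : 0 ≤ Rs h s t :=
  integral_nonneg hst fun r _ => by have := hp r; positivity

/-- energies of subintervals -/
theorem En_mono (hc : ContinuousOn h (Icc a b)) (hp : ∀ r ∈ Icc a b, 0 ≤ h r) (hu : Lip u a b)
    (h1 : a ≤ s) (h2 : s ≤ t) (h3 : t ≤ b) : En h u s t ≤ En h u a b := by
  rw [← En_add hc hu h1 (h2.trans h3),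
    ← En_add (hc.mono (Icc_subset_Icc h1 le_rfl)) (lip_mono hu h1 le_rfl) h2 h3]
  have e1 : 0 ≤ En h u a s :=
    En_nonneg (fun r hr => hp r ⟨hr.1, hr.2.trans (h2.trans h3)⟩) h1
  have e2 : 0 ≤ En h u t b :=
    En_nonneg (fun r hr => hp r ⟨(h1.trans h2).trans hr.1, hr.2⟩) h3
  linarith

theorem Sm_mono (hc : ContinuousOn h (Icc a b)) (hp : ∀ r ∈ Icc a b, 0 ≤ h r) (hu : Lip u a b)
    (h1 : a ≤ s) (h2 : s ≤ t) (h3 : t ≤ b) : Sm h u s t ≤ Sm h u a b := by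
  rw [← Sm_add hc hu h1 (h2.trans h3),
    ← Sm_add (hc.mono (Icc_subset_Icc h1 le_rfl)) (lip_mono hu h1 le_rfl) h2 h3]
  have e1 : 0 ≤ Sm h u a s :=
    Sm_nonneg (fun r hr => hp r ⟨hr.1, hr.2.trans (h2.trans h3)⟩) h1
  have e2 : 0 ≤ Sm h u t b :=
    Sm_nonneg (fun r hr => hp r ⟨(h1.trans h2).trans hr.1, hr.2⟩) h3
  linarith

theorem Rs_mono (hc : Continuous h) (hp : ∀ r, 0 < h r) (h1 : a ≤ s) (h3 : t ≤ b) :
    Rs h s t ≤ Rs h a b := by
  rw [← Rs_add hc hp a s b, ← Rs_add hc hp s t b]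
  have e1 := Rs_nonneg (h := h) hp h1
  have e2 := Rs_nonneg (h := h) hp h3
  linarith

/-- Cauchy-Schwarz. -/
theorem cs (hc : Continuous h) (hp : ∀ r, 0 < h r) (hst : s ≤ t) (hu : Lip u s t) :
    (u t - u s) ^ 2 ≤ Rs h s t * En h u s t := by
  have hc' : Continuous fun r => 1 / h r := continuous_const.div hc fun r => (hp r).ne'
  have hD : ∫ r in s..t, deriv u r = u t - u s := (lip_ac hu hst).integral_deriv_eq_sub
  have key : ∀ x : ℝ, 0 ≤ Rs h s t * (x * x) + (-2 * (u t - u s)) * x + En h u s t := by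
    intro x
    have h1 : Rs h s t * (x * x) + (-2 * (u t - u s)) * x + En h u s t
        = ∫ r in s..t, ((x ^ 2 * (1 / h r) + (-2 * x) * deriv u r) + h r * deriv u r ^ 2) := by
      rw [intervalIntegral.integral_add, intervalIntegral.integral_add,
        intervalIntegral.integral_const_mul, intervalIntegral.integral_const_mul, hD]
      · simp only [Rs, En]; ring
      · exact (hc'.intervalIntegrable _ _).const_mul _
      · exact (ii_deriv hu hst).const_mul _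
      · exact ((hc'.intervalIntegrable _ _).const_mul _).add ((ii_deriv hu hst).const_mul _)
      · exact ii_En hc.continuousOn hu hst
    rw [h1]
    refine integral_nonneg hst fun r _ => ?_
    have h2 := hp r
    have h3 : x ^ 2 * (1 / h r) + -2 * x * deriv u r + h r * deriv u r ^ 2
        = (x - h r * deriv u r) ^ 2 / h r := by
      field_simp
      ring
    rw [h3]
    positivity
  have := discrim_le_zero key
  rw [discrim] at this
  nlinarith

/-- oscillation bound -/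
theorem osc (hc : Continuous h) (hp : ∀ r, 0 < h r) (hu : Lip u a b)
    (hs : s ∈ Icc a b) (ht : t ∈ Icc a b) : (u t - u s) ^ 2 ≤ Rs h a b * En h u a b := by
  wlog hst : s ≤ t generalizing s t
  · have := this ht hs (le_of_not_ge hst)
    nlinarith
  have h1 := cs hc hp hst (lip_mono hu hs.1 ht.2)
  have h2 : Rs h s t ≤ Rs h a b := Rs_mono hc hp hs.1 ht.2
  have h3 : En h u s t ≤ En h u a b :=
    En_mono hc.continuousOn (fun r _ => (hp r).le) hu hs.1 hst ht.2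
  have h4 : 0 ≤ En h u s t := En_nonneg (fun r _ => (hp r).le) hst
  have h5 : 0 ≤ Rs h a b := Rs_nonneg hp (hs.1.trans hs.2)
  calc (u t - u s) ^ 2 ≤ Rs h s t * En h u s t := h1
    _ ≤ Rs h a b * En h u a b := mul_le_mul h2 h3 h4 h5

/-- `S ≤ mass * sup u^2` -/
theorem Sm_le {B : ℝ} (hc : Continuous h) (hp : ∀ r, 0 < h r) (hst : s ≤ t) (hu : Lip u s t)
    (hB : ∀ r ∈ Icc s t, u r ^ 2 ≤ B) : Sm h u s t ≤ Ms h s t * B := by
  have h1 : Ms h s t * B = ∫ r in s..t, h r * B := by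
    rw [intervalIntegral.integral_mul_const]; rfl
  rw [h1]
  refine integral_mono_on hst (ii_Sm hc.continuousOn hu hst)
    ((hc.mul continuous_const).intervalIntegrable _ _) fun r hr => ?_
  exact mul_le_mul_of_nonneg_left (hB r hr) (hp r).le

/-- Young's inequality -/
theorem young {κ : ℝ} (hκ : 0 < κ) (x y : ℝ) :
    y ^ 2 ≤ (1 + κ) * x ^ 2 + (1 + 1 / κ) * (y - x) ^ 2 := by
  have h1 : (1 + κ) * x ^ 2 + (1 + 1 / κ) * (y - x) ^ 2 - y ^ 2 = (κ * x - (y - x)) ^ 2 / κ := by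
    field_simp
    ring
  have h2 : 0 ≤ (κ * x - (y - x)) ^ 2 / κ := by positivity
  linarith

/-- `S` on `[s,t] ⊆ [a,b]` with a reference point `r0 ∈ [a,b]` -/
theorem Sm_le_ref {κ r0 m' R' : ℝ} (hκ : 0 < κ) (hc : Continuous h) (hp : ∀ r, 0 < h r)
    (hst : s ≤ t) (h1 : a ≤ s) (h2 : t ≤ b) (hu : Lip u a b) (hr : r0 ∈ Icc a b)
    (hm : Ms h s t ≤ m') (hR : Rs h a b ≤ R') :
    Sm h u s t ≤ m' * ((1 + κ) * u r0 ^ 2 + (1 + 1 / κ) * (R' * En h u a b)) := by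
  have hE : 0 ≤ En h u a b := En_nonneg (fun r _ => (hp r).le) (h1.trans (hst.trans h2))
  have hR0 : 0 ≤ Rs h a b := Rs_nonneg hp (h1.trans (hst.trans h2))
  have h3 : Sm h u s t ≤ Ms h s t * ((1 + κ) * u r0 ^ 2 + (1 + 1 / κ) * (R' * En h u a b)) := by
    refine Sm_le hc hp hst (lip_mono hu h1 h2) fun r hr' => ?_
    have h4 := young hκ (u r0) (u r)
    have h5 := osc hc hp hu hr ⟨h1.trans hr'.1, hr'.2.trans h2⟩
    have h6 : Rs h a b * En h u a b ≤ R' * En h u a b := mul_le_mul_of_nonneg_right hR hE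
    have h7 : (1 + 1 / κ) * (u r - u r0) ^ 2 ≤ (1 + 1 / κ) * (R' * En h u a b) :=
      mul_le_mul_of_nonneg_left (h5.trans h6) (by positivity)
    linarith
  refine h3.trans (mul_le_mul_of_nonneg_right hm ?_)
  have : 0 ≤ R' * En h u a b := mul_nonneg (hR0.trans hR) hE
  positivity

/-- point values -/
theorem pt_le_ref {κ r0 r1 R' : ℝ} (hκ : 0 < κ) (hc : Continuous h) (hp : ∀ r, 0 < h r)
    (hu : Lip u a b) (hr : r0 ∈ Icc a b) (hr1 : r1 ∈ Icc a b) (hR : Rs h a b ≤ R') :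
    u r1 ^ 2 ≤ (1 + κ) * u r0 ^ 2 + (1 + 1 / κ) * (R' * En h u a b) := by
  have hab : a ≤ b := hr.1.trans hr.2
  have hE : 0 ≤ En h u a b := En_nonneg (fun r _ => (hp r).le) hab
  have h4 := young hκ (u r0) (u r1)
  have h5 := osc hc hp hu hr hr1
  have h6 : Rs h a b * En h u a b ≤ R' * En h u a b := mul_le_mul_of_nonneg_right hR hE
  have h7 : (1 + 1 / κ) * (u r1 - u r0) ^ 2 ≤ (1 + 1 / κ) * (R' * En h u a b) :=
    mul_le_mul_of_nonneg_left (h5.trans h6) (by positivity)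
  linarith

/-- pieces with bounds -/
theorem Ms_le_of {k : ℝ} (hc : Continuous h) (hst : s ≤ t) (hk : ∀ r ∈ Icc s t, h r ≤ k) :
    Ms h s t ≤ k * (t - s) := by
  have h1 : k * (t - s) = ∫ _ in s..t, k := by simp [mul_comm]
  rw [h1]
  exact integral_mono_on hst (hc.intervalIntegrable _ _) intervalIntegrable_const hk

theorem le_Ms_of {k : ℝ} (hc : Continuous h) (hst : s ≤ t) (hk : ∀ r ∈ Icc s t, k ≤ h r) :
    k * (t - s) ≤ Ms h s t := by
  have h1 : k * (t - s) = ∫ _ in s..t, k := by simp [mul_comm]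
  rw [h1]
  exact integral_mono_on hst intervalIntegrable_const (hc.intervalIntegrable _ _) hk

theorem Rs_le_of {k : ℝ} (hc : Continuous h) (hp : ∀ r, 0 < h r) (hk0 : 0 < k) (hst : s ≤ t)
    (hk : ∀ r ∈ Icc s t, k ≤ h r) : Rs h s t ≤ (t - s) / k := by
  have hc' : Continuous fun r => 1 / h r := continuous_const.div hc fun r => (hp r).ne'
  have h1 : (t - s) / k = ∫ _ in s..t, 1 / k := by simp [div_eq_mul_inv]
  rw [h1]
  refine integral_mono_on hst (hc'.intervalIntegrable _ _) intervalIntegrable_const fun r hr => ?_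
  exact one_div_le_one_div_of_le hk0 (hk r hr)

theorem Ms_eq_of {k : ℝ} (hst : s ≤ t) (hk : ∀ r ∈ Icc s t, h r = k) :
    Ms h s t = k * (t - s) := by
  have h1 : Ms h s t = ∫ _ in s..t, k := by
    refine integral_congr fun r hr => ?_
    rw [uIcc_of_le hst] at hr
    exact hk r hr
  rw [h1]; simp [mul_comm]

theorem Rs_eq_of {k : ℝ} (hst : s ≤ t) (hk : ∀ r ∈ Icc s t, h r = k) :
    Rs h s t = (t - s) / k := by
  have h1 : Rs h s t = ∫ _ in s..t, 1 / k := by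
    refine integral_congr fun r hr => ?_
    rw [uIcc_of_le hst] at hr
    show 1 / h r = 1 / k
    rw [hk r hr]
  rw [h1]; simp [div_eq_mul_inv]

end basic

/-! ## the pieces of the ring -/

section ring

variable {P : Par} {ε : ℝ} {h : ℝ → ℝ}

theorem ring_cont (H : P.IsRing ε h) : Continuous h := H.smooth.continuous

theorem lt01 (hε : 0 < ε) : (0:ℝ) ≤ P.s1 ε := by simp only [Par.s1]; positivity
theorem lt12 (hε : 0 < ε) : P.s1 ε ≤ P.s2 ε := by
  simp only [Par.s1, Par.s2]; have : 0 < ε ^ 3 := by positivity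
  linarith
theorem lt23 (hε : 0 < ε) : P.s2 ε ≤ P.s3 ε := by simp only [Par.s2, Par.s3]; linarith
theorem lt34 (hε : 0 < ε) : P.s3 ε ≤ P.s4 ε := by
  simp only [Par.s3, Par.s4]; have : 0 < ε ^ 3 := by positivity
  linarith
theorem lt45 (hε : 0 < ε) : P.s4 ε ≤ P.s5 ε := by simp only [Par.s4, Par.s5]; linarith
theorem lt56 (hε : 0 < ε) : P.s5 ε ≤ P.s6 ε := by
  simp only [Par.s5, Par.s6]; have : 0 < ε ^ 3 := by positivity
  linarith
theorem lt67 (hε : 0 < ε) : P.s6 ε ≤ P.s7 ε := by simp only [Par.s6, Par.s7]; linarith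
theorem lt78 (hε : 0 < ε) : P.s7 ε ≤ P.s8 ε := by
  simp only [Par.s7, Par.s8]; have : 0 < ε ^ 3 := by positivity
  linarith
theorem lt89 (_hε : 0 < ε) : P.s8 ε ≤ P.s9 ε := by
  simp only [Par.s8, Par.s9]; have := P.hτ; linarith
theorem lt910 (hε : 0 < ε) : P.s9 ε ≤ P.s10 ε := by
  simp only [Par.s9, Par.s10]; have : 0 < ε ^ 3 := by positivity
  linarith
theorem lt1011 (hε : 0 < ε) : P.s10 ε ≤ P.s11 ε := by simp only [Par.s10, Par.s11]; linarith
theorem lt1112 (hε : 0 < ε) : P.s11 ε ≤ P.s12 ε := by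
  simp only [Par.s11, Par.s12]; have : 0 < ε ^ 3 := by positivity
  linarith
theorem lt1213 (hε : 0 < ε) : P.s12 ε ≤ P.s13 ε := by simp only [Par.s12, Par.s13]; linarith
theorem lt1314 (hε : 0 < ε) : P.s13 ε ≤ P.s14 ε := by
  simp only [Par.s13, Par.s14]; have : 0 < ε ^ 3 := by positivity
  linarith
theorem lt14 (hε : 0 < ε) : P.s14 ε ≤ P.ell ε := by simp only [Par.s14, Par.ell]; linarith

theorem hapos (P : Par) : 0 < P.a := by
  have := P.ha; have := P.hL0; have := P.hL01; have := P.hL12; linarith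

theorem msH (H : P.IsRing ε h) (hε : 0 < ε) : Ms h 0 (P.s1 ε) = P.M / (2 * ε) := by
  rw [Ms_eq_of (lt01 hε) H.hH]; simp only [Par.s1]; field_simp; ring
theorem rsH (H : P.IsRing ε h) (hε : 0 < ε) : Rs h 0 (P.s1 ε) = ε ^ 3 / (2 * P.M) := by
  have := P.hM
  rw [Rs_eq_of (lt01 hε) H.hH]; simp only [Par.s1]; field_simp; ring
theorem msJ1 (H : P.IsRing ε h) (hε : 0 < ε) : Ms h (P.s1 ε) (P.s2 ε) ≤ P.M * ε := by
  refine (Ms_le_of (ring_cont H) (lt12 hε) fun r hr => (H.hJ1 r hr).2).trans (le_of_eq ?_)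
  simp only [Par.s1, Par.s2]; field_simp; ring
theorem rsJ1 (H : P.IsRing ε h) (hε : 0 < ε) : Rs h (P.s1 ε) (P.s2 ε) ≤ ε ^ 3 := by
  refine (Rs_le_of (ring_cont H) H.pos one_pos (lt12 hε) fun r hr => (H.hJ1 r hr).1).trans
    (le_of_eq ?_)
  simp only [Par.s1, Par.s2]; ring
theorem msN1 (H : P.IsRing ε h) (hε : 0 < ε) : Ms h (P.s2 ε) (P.s3 ε) = ε := by
  rw [Ms_eq_of (lt23 hε) H.hN1]; simp only [Par.s2, Par.s3]; ring
theorem rsN1 (H : P.IsRing ε h) (hε : 0 < ε) : Rs h (P.s2 ε) (P.s3 ε) = ε := by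
  rw [Rs_eq_of (lt23 hε) H.hN1]; simp only [Par.s2, Par.s3]; ring
theorem msJ2 (H : P.IsRing ε h) (hε : 0 < ε) : Ms h (P.s3 ε) (P.s4 ε) ≤ P.m * ε := by
  refine (Ms_le_of (ring_cont H) (lt34 hε) fun r hr => (H.hJ2 r hr).2).trans (le_of_eq ?_)
  simp only [Par.s3, Par.s4]; field_simp; ring
theorem rsJ2 (H : P.IsRing ε h) (hε : 0 < ε) : Rs h (P.s3 ε) (P.s4 ε) ≤ ε ^ 3 := by
  refine (Rs_le_of (ring_cont H) H.pos one_pos (lt34 hε) fun r hr => (H.hJ2 r hr).1).trans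
    (le_of_eq ?_)
  simp only [Par.s3, Par.s4]; ring
theorem msL (H : P.IsRing ε h) (hε : 0 < ε) : Ms h (P.s4 ε) (P.s5 ε) = P.m / ε := by
  rw [Ms_eq_of (lt45 hε) H.hL]; simp only [Par.s4, Par.s5]; field_simp; ring
theorem rsL (H : P.IsRing ε h) (hε : 0 < ε) : Rs h (P.s4 ε) (P.s5 ε) = ε ^ 3 / P.m := by
  have := P.hm
  rw [Rs_eq_of (lt45 hε) H.hL]; simp only [Par.s4, Par.s5]; field_simp; ring
theorem msJ3 (H : P.IsRing ε h) (hε : 0 < ε) : Ms h (P.s5 ε) (P.s6 ε) ≤ P.m * ε := by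
  refine (Ms_le_of (ring_cont H) (lt56 hε) fun r hr => (H.hJ3 r hr).2).trans (le_of_eq ?_)
  simp only [Par.s5, Par.s6]; field_simp; ring
theorem rsJ3 (H : P.IsRing ε h) (hε : 0 < ε) : Rs h (P.s5 ε) (P.s6 ε) ≤ ε / P.c := by
  have := P.hc
  refine (Rs_le_of (k := P.c * ε ^ 2) (ring_cont H) H.pos (by positivity) (lt56 hε)
    fun r hr => (H.hJ3 r hr).1).trans (le_of_eq ?_)
  simp only [Par.s5, Par.s6]; field_simp; ring
theorem msN2 (H : P.IsRing ε h) (hε : 0 < ε) : Ms h (P.s6 ε) (P.s7 ε) = P.c * ε ^ 3 := by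
  rw [Ms_eq_of (lt67 hε) H.hN2]; simp only [Par.s6, Par.s7]; ring
theorem rsN2 (H : P.IsRing ε h) (hε : 0 < ε) : Rs h (P.s6 ε) (P.s7 ε) = 1 / (P.c * ε) := by
  have := P.hc
  rw [Rs_eq_of (lt67 hε) H.hN2]; simp only [Par.s6, Par.s7]; field_simp; ring
theorem msJ4 (H : P.IsRing ε h) (hε : 0 < ε) : Ms h (P.s7 ε) (P.s8 ε) ≤ ε ^ 4 := by
  refine (Ms_le_of (ring_cont H) (lt78 hε) fun r hr => (H.hJ4 r hr).2).trans (le_of_eq ?_)
  simp only [Par.s7, Par.s8]; ring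
theorem rsJ4 (H : P.IsRing ε h) (hε : 0 < ε) : Rs h (P.s7 ε) (P.s8 ε) ≤ ε / P.c := by
  have := P.hc
  refine (Rs_le_of (k := P.c * ε ^ 2) (ring_cont H) H.pos (by positivity) (lt78 hε)
    fun r hr => (H.hJ4 r hr).1).trans (le_of_eq ?_)
  simp only [Par.s7, Par.s8]; field_simp; ring
theorem msQ (H : P.IsRing ε h) (hε : 0 < ε) : Ms h (P.s8 ε) (P.s9 ε) = P.τ * ε := by
  rw [Ms_eq_of (lt89 hε) H.hQ]; simp only [Par.s8, Par.s9]; ring
theorem rsQ (H : P.IsRing ε h) (hε : 0 < ε) : Rs h (P.s8 ε) (P.s9 ε) = P.τ / ε := by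
  rw [Rs_eq_of (lt89 hε) H.hQ]; simp only [Par.s8, Par.s9]; ring
theorem msJ5 (H : P.IsRing ε h) (hε : 0 < ε) : Ms h (P.s9 ε) (P.s10 ε) ≤ ε ^ 2 := by
  refine (Ms_le_of (ring_cont H) (lt910 hε) fun r hr => (H.hJ5 r hr).2).trans (le_of_eq ?_)
  simp only [Par.s9, Par.s10]; field_simp; ring
theorem rsJ5 (H : P.IsRing ε h) (hε : 0 < ε) : Rs h (P.s9 ε) (P.s10 ε) ≤ ε ^ 2 := by
  refine (Rs_le_of (ring_cont H) H.pos hε (lt910 hε) fun r hr => (H.hJ5 r hr).1).trans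
    (le_of_eq ?_)
  simp only [Par.s9, Par.s10]; field_simp; ring
theorem msR (H : P.IsRing ε h) (hε : 0 < ε) : Ms h (P.s10 ε) (P.s11 ε) = 1 := by
  rw [Ms_eq_of (lt1011 hε) H.hR]; simp only [Par.s10, Par.s11]; field_simp; ring
theorem rsR (H : P.IsRing ε h) (hε : 0 < ε) : Rs h (P.s10 ε) (P.s11 ε) = ε ^ 2 := by
  rw [Rs_eq_of (lt1011 hε) H.hR]; simp only [Par.s10, Par.s11]; field_simp; ring
theorem msJ6 (H : P.IsRing ε h) (hε : 0 < ε) : Ms h (P.s11 ε) (P.s12 ε) ≤ ε ^ 2 := by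
  refine (Ms_le_of (ring_cont H) (lt1112 hε) fun r hr => (H.hJ6 r hr).2).trans (le_of_eq ?_)
  simp only [Par.s11, Par.s12]; field_simp; ring
theorem rsJ6 (H : P.IsRing ε h) (hε : 0 < ε) : Rs h (P.s11 ε) (P.s12 ε) ≤ ε ^ 2 / P.a := by
  have := hapos P
  refine (Rs_le_of (k := P.a * ε) (ring_cont H) H.pos (by positivity) (lt1112 hε)
    fun r hr => (H.hJ6 r hr).1).trans (le_of_eq ?_)
  simp only [Par.s11, Par.s12]; field_simp; ring
theorem msN3 (H : P.IsRing ε h) (hε : 0 < ε) : Ms h (P.s12 ε) (P.s13 ε) = P.a * ε ^ 2 := by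
  rw [Ms_eq_of (lt1213 hε) H.hN3]; simp only [Par.s12, Par.s13]; ring
theorem rsN3 (H : P.IsRing ε h) (hε : 0 < ε) : Rs h (P.s12 ε) (P.s13 ε) = 1 / P.a := by
  have := hapos P
  rw [Rs_eq_of (lt1213 hε) H.hN3]; simp only [Par.s12, Par.s13]; field_simp; ring
theorem msJ7 (H : P.IsRing ε h) (hε : 0 < ε) : Ms h (P.s13 ε) (P.s14 ε) ≤ P.M * ε := by
  refine (Ms_le_of (ring_cont H) (lt1314 hε) fun r hr => (H.hJ7 r hr).2).trans (le_of_eq ?_)
  simp only [Par.s13, Par.s14]; field_simp; ring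
theorem rsJ7 (H : P.IsRing ε h) (hε : 0 < ε) : Rs h (P.s13 ε) (P.s14 ε) ≤ ε ^ 2 / P.a := by
  have := hapos P
  refine (Rs_le_of (k := P.a * ε) (ring_cont H) H.pos (by positivity) (lt1314 hε)
    fun r hr => (H.hJ7 r hr).1).trans (le_of_eq ?_)
  simp only [Par.s13, Par.s14]; field_simp; ring
theorem msH' (H : P.IsRing ε h) (hε : 0 < ε) : Ms h (P.s14 ε) (P.ell ε) = P.M / (2 * ε) := by
  rw [Ms_eq_of (lt14 hε) H.hH']; simp only [Par.s14, Par.ell]; field_simp; ring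
theorem rsH' (H : P.IsRing ε h) (hε : 0 < ε) : Rs h (P.s14 ε) (P.ell ε) = ε ^ 3 / (2 * P.M) := by
  have := P.hM
  rw [Rs_eq_of (lt14 hε) H.hH']; simp only [Par.s14, Par.ell]; field_simp; ring

end ring

end Pool.Agent.Lib.MP_e46711_an.H11
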